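import Mathlib

/-!
Project C2 (MP_7f581e_nt, the parity part): statements (NOT results) of the pieces, with their
proofs in the docstrings. Everything here is Mathlib only. The parity theorem is the char 2 analogue
of the statement `St_par` of the project AW: the monodromy of a covering `f = (x + h^8)/z^8` of the
affine line in characteristic 2 consists of even permutations.
-/

set_option autoImplicit false

namespace Pool.Agent.XE31.C2

open Polynomial

/-! ### The ring of Witt vectors as an abstract ring -/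

/-- `W` is a domain with residue field `N` (of characteristic 2) and maximal ideal `(2)`, with a
multiplicative section `τ` of the residue map `r`, Hensel's lemma, and lifts of the automorphisms of
`N` which commute with `τ`. -/
structure WD (N W : Type) [Field N] [CommRing W] (r : W →+* N) (τ : N → W) : Prop where
  dom : IsDomain W
  two : (2 : W) ≠ 0
  sec : ∀ x, r (τ x) = x
  zero : τ 0 = 0
  one : τ 1 = 1
  mul : ∀ x y, τ (x * y) = τ x * τ y
  ker : ∀ w, r w = 0 → ∃ v, w = 2 * v
  unit : ∀ w, r w ≠ 0 → IsUnit w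
  hensel : ∀ (f : W[X]), f.Monic → ∀ a : N, (f.map r).eval a = 0 →
    (derivative (f.map r)).eval a ≠ 0 → ∃ b : W, f.eval b = 0 ∧ r b = a
  aut : ∀ σ : N ≃+* N, ∃ σ' : W ≃+* W, (∀ w, r (σ' w) = σ (r w)) ∧ ∀ x, σ' (τ x) = τ (σ x)

/-- PIECE WIT. `W = WittVector 2 N`, `r = WittVector.constantCoeff`, `τ = WittVector.teichmuller 2`.
Domain: instance in `Mathlib.RingTheory.WittVector.Domain`; `ker`:
`WittVector.mem_span_p_iff_coeff_zero_eq_zero` (or `ker_constantCoeff`); unit:
`WittVector.isUnit_of_coeff_zero_ne_zero`; Hensel: `WittVector.isAdicCompleteIdealSpanP` and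
`IsAdicComplete.henselianRing` (the derivative condition there is that `f' (a₀)` is a unit modulo
the ideal); `2 ≠ 0`: `WittVector.p_nonzero` or `irreducible`; `aut`: `WittVector.map σ`,
`WittVector.map_teichmuller`, inverse `WittVector.map σ.symm`. -/
def St_wit : Prop :=
  ∀ (N : Type) [Field N] [CharP N 2] [IsAlgClosed N], ∃ (W : Type) (_ : CommRing W) (r : W →+* N)
    (τ : N → W), WD N W r τ

/-- PIECE ROOT. `P : W[X]` has degree `n`, its leading coefficient is a unit, and its reduction has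
`n` different roots `x l` (so these are all roots and they are simple). Then `P` is the product of
`n` linear factors over `W`, whose roots lift the `x l`.
Proof: `P = C u * P₁`, `P₁` monic (`u` = leading coefficient, a unit by `unit`). The reduction of
`P₁` is monic of degree `n` with `n` different roots, so equal to `∏ (X - C (x l))`, the derivative at
`x l` is `∏_{j ≠ l} (x l - x j) ≠ 0`. Hensel gives `x' l`; they are different, `∏ (X - C (x' l))`
divides `P₁` (`Finset.prod_dvd_of_coprime` over the fraction field, or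
`Polynomial.prod_multiset_X_sub_C_dvd` / `Multiset` of roots in the domain `W`), both are monic of the
same degree. -/
def St_root : Prop :=
  ∀ (N W : Type) [Field N] [CharP N 2] [CommRing W] (r : W →+* N) (τ : N → W), WD N W r τ →
    ∀ (P : W[X]) (n : ℕ), P.natDegree = n → r P.leadingCoeff ≠ 0 → ∀ x : Fin n → N,
      Function.Injective x → (∀ l, (P.map r).eval (x l) = 0) →
      ∃ x' : Fin n → W, (∀ l, r (x' l) = x l) ∧ P = C P.leadingCoeff * ∏ l, (X - C (x' l))

/-- PIECE SGNV. `V = det (Matrix.vandermonde x) = ∏_{i < j} (x j - x i)`. Then `V ^ 2` is the product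
of all `x l - x j`, `l ≠ j`, up to the sign `(-1) ^ (n (n - 1) / 2) = 1` as `4 ∣ n`, and a
homomorphism which permutes the `x l` by `π` multiplies `V` by the sign of `π`
(`Matrix.det_permute'` or `Matrix.det_permute`). Compare `Pool/Agent/Y436/AW/Par.lean`. -/
def St_sgnv : Prop :=
  ∀ (R : Type) [CommRing R] (n : ℕ), 4 ∣ n → ∀ x : Fin n → R, ∃ V : R,
    V ^ 2 = ∏ l, ∏ j ∈ Finset.univ.erase l, (x l - x j) ∧
    ∀ (σ : R ≃+* R) (π : Equiv.Perm (Fin n)), (∀ l, σ (x l) = x (π l)) →
      σ V = ((Equiv.Perm.sign π : ℤˣ) : ℤ) • V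

/-- PIECE SQ. If `v ^ 2 = c ^ 2 + 8 w`, `v` a unit, `σ c = c` and `σ v = ± v`, then `σ v = v`.
Proof: let `u = -1`, so `σ v = -v`. `r (v) ^ 2 = r (c) ^ 2`, so `r v = r c` (characteristic 2) and
`v = c + 2 f`, `4 f (f + c) = 8 w`, `f (f + c) = 2 w`, so `r f = 0` or `r (f + c) = 0`.
Case 1: `f = 2 f'`, `v = c + 4 f'`, `σ v = c + 4 σ f' = - c - 4 f'`, so `2 c = - 4 (f' + σ f')`,
`c = -2 (f' + σ f')`, `r c = 0`, a contradiction to `r c = r v ≠ 0`. Case 2: `f + c = 2 f'`,
`v = - c + 4 f'`, in the same way. -/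
def St_sq : Prop :=
  ∀ (N W : Type) [Field N] [CharP N 2] [CommRing W] (r : W →+* N) (τ : N → W), WD N W r τ →
    ∀ (σ : W ≃+* W) (v c w : W) (u : ℤˣ), v ^ 2 = c ^ 2 + 8 * w → r v ≠ 0 → σ c = c →
      σ v = ((u : ℤˣ) : ℤ) • v → u = 1

/-! ### The polynomials -/

section defs

variable {R : Type} [CommRing R]

/-- The polynomial `Ξ(x, Y) = ∑ a_k(x) ^ 8 Y ^ k` (the outer variable is `Y`). -/
noncomputable def XI (d : ℕ) (a : ℕ → R[X]) : R[X][X] :=
  ∑ k ∈ Finset.range (d + 1), C (a k ^ 8) * X ^ k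

/-- The polynomial `P = ∑ a_k ^ 8 G ^ k (s E) ^ (d - k)`. -/
noncomputable def PW (d : ℕ) (a : ℕ → R[X]) (E G : R[X]) (s : R) : R[X] :=
  ∑ k ∈ Finset.range (d + 1), a k ^ 8 * G ^ k * (C s * E) ^ (d - k)

/-- The polynomial `U = ∑ k a_k ^ 8 G ^ (k - 1) (s E) ^ (d - k)`. -/
noncomputable def UW (d : ℕ) (a : ℕ → R[X]) (E G : R[X]) (s : R) : R[X] :=
  ∑ k ∈ Finset.range (d + 1), (k : R[X]) * a k ^ 8 * G ^ (k - 1) * (C s * E) ^ (d - k)

/-- The value of `f(x, Y)` at the point `(x, η)`. -/
noncomputable def ev2 (f : R[X][X]) (x η : R) : R := (f.map (evalRingHom x)).eval η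

/-- The block Sylvester matrix of two `d × d` matrices of polynomials: the matrix of
`(a, b) ↦ 𝓕 a + 𝓗 b` for vectors `a`, `b` of polynomials of degree less than `h`, `g`; the rows
`inl (i, j)` belong to the coefficient of `X ^ (g + i)` and the rows `inr (i, j)` to the coefficient of
`X ^ i` of the coordinate `j`. -/
noncomputable def Syl {d : ℕ} (F H : Matrix (Fin d) (Fin d) R[X]) (g h : ℕ) :
    Matrix ((Fin h × Fin d) ⊕ (Fin g × Fin d)) ((Fin h × Fin d) ⊕ (Fin g × Fin d)) R :=
  Matrix.of fun ρ κ => κ.elim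
    (fun q => ρ.elim (fun p => (F p.2 q.2 * X ^ (q.1 : ℕ)).coeff (g + p.1))
      (fun p => (F p.2 q.2 * X ^ (q.1 : ℕ)).coeff p.1))
    (fun q => ρ.elim (fun p => (H p.2 q.2 * X ^ (q.1 : ℕ)).coeff (g + p.1))
      (fun p => (H p.2 q.2 * X ^ (q.1 : ℕ)).coeff p.1))

/-- `F` is `X ^ g` times the identity, up to entries of degree less than `g`. -/
def Mon {d : ℕ} (F : Matrix (Fin d) (Fin d) R[X]) (g : ℕ) : Prop :=
  ∀ i j, (F i j - if i = j then X ^ g else 0).degree < (g : WithBot ℕ)

/-- The evaluations `c ↦ ∑ c_{i,j} x_l ^ i v_{l,j}` are jointly injective. -/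
def Nons {d : ℕ} {ι : Type} (g : ℕ) (x : ι → R) (v : ι → Fin d → R) : Prop :=
  ∀ c : Fin g × Fin d → R, (∀ l, ∑ κ, c κ * (x l ^ (κ.1 : ℕ) * v l κ.2) = 0) → c = 0

end defs

/-- PIECE DER. `P' = E U` modulo 8, for `E = D ^ 8` and `G' = E` modulo 8.
Proof: modulo 8 (apply the map to `(R ⧸ (8))[X]`, or compute with explicit multiples of 8) the
derivatives of the eighth powers `a k ^ 8` and `(C s * D ^ 8) ^ (d - k) = C (s ^ (d - k)) *
(D ^ (d - k)) ^ 8` vanish (`Polynomial.derivative_pow`), and the derivative of `G ^ k` is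
`k G ^ (k - 1) E`. -/
def St_der : Prop :=
  ∀ (R : Type) [CommRing R] (d : ℕ) (a : ℕ → R[X]) (D G G₂ : R[X]) (s : R),
    derivative G = D ^ 8 + 8 * G₂ →
    ∃ Q : R[X], derivative (PW d a (D ^ 8) G s) = D ^ 8 * UW d a (D ^ 8) G s + 8 * Q

/-- PIECE ETA. `P(x) = (s E(x)) ^ d Ξ(x, η)` and `U(x) = (s E(x)) ^ (d - 1) Ξ_Y(x, η)` if
`G(x) = s E(x) η` (termwise; for the second identity `0 < d`, the term `k = 0` vanishes). -/
def St_eta : Prop :=
  ∀ (R : Type) [CommRing R] (d : ℕ) (a : ℕ → R[X]) (E G : R[X]) (s x η : R), 0 < d →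
    G.eval x = s * E.eval x * η →
    (PW d a E G s).eval x = (s * E.eval x) ^ d * ev2 (XI d a) x η ∧
    (UW d a E G s).eval x = (s * E.eval x) ^ (d - 1) * ev2 (derivative (XI d a)) x η

/-- PIECE RES. The resultant of `G` and `D₁` modulo 8, for `G = G₁ ^ 8 + E W₀`, `E = D₁ E₁` modulo 8.
Proof: apply `φ : R →+* R ⧸ span {8}`, `Polynomial.resultant_map_map`; there
`G = G₁ ^ 8 + D₁ (E₁ W₀)`, so `Polynomial.resultant_add_mul_left` gives
`Res(G, D₁) = Res(G₁ ^ 8, D₁)` (degrees `8 b` and `δ`), which is `Res(G₁, D₁) ^ 8` by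
`Polynomial.resultant_pow_left` (used over the domain `R`). -/
def St_res8 : Prop :=
  ∀ (R : Type) [CommRing R] [IsDomain R] (δ b : ℕ) (D₁ E E₁ Z G G₁ W₀ : R[X]),
    D₁.natDegree ≤ δ → G₁.natDegree = b → G₁ ≠ 0 → E = D₁ * E₁ + 8 * Z → G = G₁ ^ 8 + E * W₀ →
    (E₁ * W₀).natDegree + δ ≤ 8 * b →
    ∃ t : R, resultant G D₁ (8 * b) δ = (resultant G₁ D₁ b δ) ^ 8 + 8 * t

/-- PIECE EIG. The representation of `R[X][Y] / (Ξ)` on the basis `1, Y, …, Y ^ (d - 1)`: `𝓜 f` is the
matrix of the multiplication by `f`, and at a point `(x, η)` of `Ξ = 0` the row vector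
`(1, η, …, η ^ (d - 1))` is an eigenvector with the eigenvalue `f(x, η)`.
Proof: `𝓜 = (Algebra.leftMulMatrix (AdjoinRoot.powerBasis' hΞ).basis).toRingHom.comp (AdjoinRoot.mk Ξ)`
(indices `Fin Ξ.natDegree`); for a point the ring homomorphism
`ε = AdjoinRoot.lift (evalRingHom x) η _ : AdjoinRoot Ξ →+* R` is applied to
`f * Y ^ j = ∑ i, (𝓜 f i j) • Y ^ i` (`Algebra.leftMulMatrix_eq_repr_mul`, `Basis.sum_repr`). -/
def St_eig : Prop :=
  ∀ (R : Type) [CommRing R] (Ξ : R[X][X]) (d : ℕ), Ξ.Monic → Ξ.natDegree = d →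
    ∃ M : R[X][X] →+* Matrix (Fin d) (Fin d) R[X], (∀ c : R[X], M (C c) = c • 1) ∧ M Ξ = 0 ∧
      ∀ x η : R, ev2 Ξ x η = 0 → ∀ (f : R[X][X]) (j : Fin d),
        ∑ i : Fin d, η ^ (i : ℕ) * (M f i j).eval x = ev2 f x η * η ^ (j : ℕ)

/-- PIECE NONS. Zeros of a matrix polynomial with different first coordinates.
Proof. Division: for every vector `c` of polynomials there are `u`, `w` with
`c = F.mulVec u + w`, `deg w i < g`: induction on a bound `m` for the degrees; if `m ≥ g`, subtract
`F.mulVec (X ^ (m - g) • top)`, `top i = C (coefficient of X ^ m in c i)`; by `Mon` this has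
coefficients of `X ^ m` equal to `top` and no higher ones. Apply this to `c = X ^ k e₀`,
`k < g * d`: evaluating at `x l` and multiplying with the row `v l` gives
`x l ^ k = ∑ i, v l i * (w i).eval (x l) = ∑ κ, C_{κ k} (x l ^ κ.1 * v l κ.2)`. So the Vandermonde
matrix of `x` (nonzero determinant, `g * d` different elements of a domain) is the product of the
matrix `(x l ^ κ.1 * v l κ.2)` and `C`; so the first has nonzero determinant (reindex by
`finProdFinEquiv`), which gives the claim (`Matrix.eq_zero_of_mulVec_eq_zero`). -/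
def St_nons : Prop :=
  ∀ (R : Type) [CommRing R] [IsDomain R] (d g : ℕ) (F : Matrix (Fin d) (Fin d) R[X]) (hd : 0 < d),
    Mon F g → ∀ (x : Fin (g * d) → R) (v : Fin (g * d) → Fin d → R), Function.Injective x →
      (∀ l, v l ⟨0, hd⟩ = 1) → (∀ l j, ∑ i, v l i * (F i j).eval (x l) = 0) → Nons g x v

/-- PIECE NONZ. The points over `s = 0`: `(a i, b i j)`, the `a i` different, the `b i j` different
for fixed `i`.
Proof: fix `i`. `∑_κ c κ a_i ^ κ.1 b_{ij} ^ κ.2 = ∑_k (∑_m c (m, k) a_i ^ m) b_{ij} ^ k = 0` for all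
`j`, a Vandermonde system of size `d` (`Matrix.eq_zero_of_forall_index_sum_pow_mul_eq_zero`), so
`∑_m c (m, k) a_i ^ m = 0` for all `k` and all `i`; again Vandermonde of size `g`. -/
def St_nonz : Prop :=
  ∀ (R : Type) [CommRing R] [IsDomain R] (d g : ℕ) (a : Fin g → R) (b : Fin g → Fin d → R),
    Function.Injective a → (∀ i, Function.Injective (b i)) →
    Nons g (fun l : Fin g × Fin d => a l.1) (fun l (k : Fin d) => b l.1 l.2 ^ (k : ℕ))

/-- PIECE SYLE. The Sylvester determinant is the product of the values of `H` at the zeros of `F`.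
Proof. Let `Φ` be the matrix with rows indexed by `(Fin h × Fin d) ⊕ ι` and the columns of the rows of
`Syl`: the row `inl p` is the unit vector at `inl p`; the row `inr l` is the evaluation at `(x l, v l)`:
`inl (i, j) ↦ x l ^ (g + i) * v l j`, `inr (i, j) ↦ x l ^ i * v l j`. Then `det Φ = det 𝓔`,
`𝓔 = (x l ^ i * v l j)` (reindex `ι` by `e`; `Matrix.det_fromBlocks_zero₁₂`), and `Φ * Syl` is the
block matrix with the blocks `T`, `*`, `0`, `diag(y) 𝓔`: the lower left block is
`x l ^ i * ∑_{j'} v l j' (F j' j).eval (x l) = 0` (a polynomial `F j' j * X ^ i` has degree less than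
`g + h`, so its value is the sum of its coefficients of index `< g` and `g + i'`, `i' < h`), the lower
right one is `y l * (x l ^ i * v l j)`, and `T ((i', j'), (i, j)) = (F j' j).coeff (g + i' - i)` is `0` for
`i < i'`, the identity for `i = i'` by `Mon`: `det T = 1` (`Matrix.BlockTriangular.det_fintype` or
`Matrix.det_of_upperTriangular` for the lexicographic order). So
`det 𝓔 * det Syl = det (diag y) * det 𝓔`, and `det 𝓔 ≠ 0` by `Nons`
(`Matrix.exists_mulVec_eq_zero_iff`). -/
def St_syle : Prop :=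
  ∀ (R ι : Type) [CommRing R] [IsDomain R] [Fintype ι] (d g h : ℕ)
    (F H : Matrix (Fin d) (Fin d) R[X]), ι ≃ Fin g × Fin d → Mon F g →
    (∀ i j, (H i j).natDegree ≤ h) → ∀ (x : ι → R) (v : ι → Fin d → R) (y : ι → R), Nons g x v →
      (∀ l j, ∑ i, v l i * (F i j).eval (x l) = 0) →
      (∀ l j, ∑ i, v l i * (H i j).eval (x l) = y l * v l j) → (Syl F H g h).det = ∏ l, y l

/-- PIECE SYLC. Invariance of the Sylvester determinant.
Proof. Map everything to `R ⧸ span {π}` (`RingHom.map_det`, coefficients commute with maps), so let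
`π = 0`, `F' = F + H * V`. Then `Syl F' H g h = Syl F H g h * fromBlocks 1 0 𝓥 1` with
`𝓥 (i, j) (i₀, j₀) = (V j j₀ * X ^ i₀).coeff i` (`i < g`, `i₀ < h`): the column `inl (i₀, j₀)` is
`F X^i₀ e_j₀ + H (V X^i₀ e_j₀)`, and `V j j₀ * X ^ i₀` has degree less than `g`, so it is the sum of its
coefficients of index less than `g`. The second matrix has determinant `1`
(`Matrix.det_fromBlocks_zero₁₂`). -/
def St_sylc : Prop :=
  ∀ (R : Type) [CommRing R] (d g h v : ℕ) (F F' H V Z : Matrix (Fin d) (Fin d) R[X]) (π : R),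
    (∀ i j, (V i j).natDegree ≤ v) → v + h ≤ g → F' = F + H * V + (C π : R[X]) • Z →
    ∃ t : R, (Syl F' H g h).det = (Syl F H g h).det + π * t

/-- PIECE ZER. The points over `s = 0`.
Proof: the reduction of `G` splits over the algebraically closed field `N` with `g` different roots (no
double roots by `hsep`; `natDegree` of the reduction is `g`), so ROOT gives `a`. For every `i` the
reduction of `Ξ(a i, Y)` is monic of degree `d`; its resultant with its derivative is the reduction of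
`D₁(a i)` (`Polynomial.resultant_map_map`; `D₁ = Res(Ξ, Ξ')` with the degrees `d`, `d - 1`), not zero, so
it has no double roots (`Polynomial.resultant_eq_zero_iff` or `resultant_eq_prod_eval`), so `d` different
roots; ROOT gives `b i`, and `∏_j Ξ_Y(a i, b i j) = D₁(a i)` by `Polynomial.resultant_eq_prod_eval`
(or `resultant_prod_left` and `resultant_X_sub_C_left`). Compare `Pool/Agent/Y730/AW/Zero.lean`. -/
def St_zer : Prop :=
  St_root → ∀ (N W : Type) [Field N] [CharP N 2] [IsAlgClosed N] [CommRing W] (r : W →+* N)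
    (τ : N → W), WD N W r τ → ∀ (Ξ : W[X][X]) (d g : ℕ) (G D₁ : W[X]), Ξ.Monic → Ξ.natDegree = d →
    0 < d → resultant Ξ (derivative Ξ) d (d - 1) = D₁ → G.natDegree = g → r G.leadingCoeff ≠ 0 →
    (∀ z, (G.map r).eval z = 0 → (derivative (G.map r)).eval z ≠ 0) →
    (∀ z, (G.map r).eval z = 0 → (D₁.map r).eval z ≠ 0) →
    ∃ (a : Fin g → W) (b : Fin g → Fin d → W), Function.Injective a ∧
      (∀ i, Function.Injective (b i)) ∧ G = C G.leadingCoeff * ∏ i, (X - C (a i)) ∧
      (∀ i j, ev2 Ξ (a i) (b i j) = 0) ∧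
      ∏ i, ∏ j, ev2 (derivative Ξ) (a i) (b i j) = ∏ i, D₁.eval (a i)

end Pool.Agent.XE31.C2
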