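import Mathlib
import Pool.Agent.XE31.C2.StmA

/-!
Project C2: the norm of `Ξ_Y` does not depend on `s` modulo 8 (from the pieces).
-/

set_option autoImplicit false

namespace Pool.Agent.XE31.C2

open Polynomial

theorem exists_bound {R : Type} [CommRing R] {d : ℕ} (M : Matrix (Fin d) (Fin d) R[X]) :
    ∃ h : ℕ, ∀ i j, (M i j).natDegree ≤ h := by
  refine ⟨Finset.univ.sup fun p : Fin d × Fin d => (M p.1 p.2).natDegree, fun i j => ?_⟩
  exact Finset.le_sup (f := fun p : Fin d × Fin d => (M p.1 p.2).natDegree)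
    (Finset.mem_univ (i, j))

theorem natDegree_C_mul_le' {R : Type} [CommRing R] (s : R) (f : R[X]) :
    (C s * f).natDegree ≤ f.natDegree := natDegree_C_mul_le s f

/-- The values of `Ξ_Y` on the fibres modulo 8. -/
theorem meq (hEIG : St_eig) (hNONS : St_nons) (hNONZ : St_nonz) (hSYLE : St_syle)
    (hSYLC : St_sylc) {R : Type} [CommRing R] [IsDomain R] (Ξ : R[X][X]) (d : ℕ) (hd : 0 < d)
    (hΞ : Ξ.Monic) (hΞd : Ξ.natDegree = d) (D₁ E E₁ Z : R[X])
    (hD₁ : resultant Ξ (derivative Ξ) d (d - 1) = D₁) (hE : E = D₁ * E₁ + 8 * Z) :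
    ∃ g₀ : ℕ, ∀ g ≥ g₀, ∀ (G : R[X]), G.Monic → G.natDegree = g → ∀ (s : R)
      (x η : Fin (g * d) → R), Function.Injective x → (∀ l, ev2 Ξ (x l) (η l) = 0) →
      (∀ l, G.eval (x l) = s * E.eval (x l) * η l) →
      ∀ (a : Fin g → R) (b : Fin g → Fin d → R), Function.Injective a →
      (∀ i, Function.Injective (b i)) → (∀ i, G.eval (a i) = 0) →
      (∀ i j, ev2 Ξ (a i) (b i j) = 0) →
      ∃ t : R, ∏ i, ∏ j, ev2 (derivative Ξ) (a i) (b i j) =
        ∏ l, ev2 (derivative Ξ) (x l) (η l) + 8 * t := by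
  classical
  obtain ⟨M, hMC, hMΞ, hMev⟩ := hEIG R Ξ d hΞ hΞd
  obtain ⟨p, q, -, -, hpq⟩ := exists_mul_add_mul_eq_C_resultant (m := d) (n := d - 1) Ξ
    (derivative Ξ) hΞd.le ((natDegree_derivative_le Ξ).trans (by omega)) (Or.inl hd.ne')
  rw [hD₁] at hpq
  have hMq : M (derivative Ξ) * M q = D₁ • (1 : Matrix (Fin d) (Fin d) R[X]) := by
    rw [← hMC, ← hpq, map_add, map_mul, map_mul, hMΞ, zero_mul, zero_add]
  set Y := M X with hY
  set H := M (derivative Ξ) with hH
  obtain ⟨h, hh⟩ := exists_bound H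
  obtain ⟨v, hv⟩ := exists_bound (E₁ • (M q * Y))
  obtain ⟨e, he⟩ := exists_bound (E • Y)
  refine ⟨v + h + e + 1, fun g hg G hG hGd s x η hx hxη hGx a b ha hb hGa hab => ?_⟩
  have hCs : ∀ (f : R[X]) (N : Matrix (Fin d) (Fin d) R[X]) (i j : Fin d) (k : ℕ),
      ((f • N) i j).natDegree ≤ k → (((C s * f) • N) i j).natDegree ≤ k := by
    intro f N i j k hk
    rw [mul_smul, Matrix.smul_apply, smul_eq_mul]
    exact (natDegree_C_mul_le _ _).trans hk
  -- the matrices
  obtain ⟨F₀, hF₀⟩ : ∃ F : Matrix (Fin d) (Fin d) R[X], F = G • 1 := ⟨_, rfl⟩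
  obtain ⟨F, hF⟩ : ∃ F : Matrix (Fin d) (Fin d) R[X], F = G • 1 - (C s * E) • Y := ⟨_, rfl⟩
  have hGX : (G - X ^ g).degree < (g : WithBot ℕ) := by
    have h1 : (G : R[X]).degree = (X ^ g : R[X]).degree := by
      rw [degree_X_pow, degree_eq_natDegree hG.ne_zero, hGd]
    have h2 := degree_sub_lt h1 hG.ne_zero (by
      rw [hG.leadingCoeff, (monic_X_pow g).leadingCoeff])
    rwa [degree_eq_natDegree hG.ne_zero, hGd] at h2
  have hone : ∀ i j, (G • (1 : Matrix (Fin d) (Fin d) R[X])) i j -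
      (if i = j then X ^ g else 0) = if i = j then G - X ^ g else 0 := by
    intro i j
    rw [Matrix.smul_apply, Matrix.one_apply, smul_eq_mul]
    split_ifs <;> simp
  have hdeg0 : ∀ i j : Fin d, (if i = j then G - X ^ g else 0 : R[X]).degree <
      (g : WithBot ℕ) := by
    intro i j
    split_ifs
    · exact hGX
    · rw [degree_zero]
      exact WithBot.bot_lt_coe g
  have hMon₀ : Mon F₀ g := by
    intro i j
    rw [hF₀, hone]
    exact hdeg0 i j
  have hMon : Mon F g := by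
    intro i j
    have h1 : F i j - (if i = j then X ^ g else 0) =
        (if i = j then G - X ^ g else 0) - ((C s * E) • Y) i j := by
      rw [← hone, hF, Matrix.sub_apply]
      ring
    rw [h1]
    refine lt_of_le_of_lt (degree_sub_le _ _) (max_lt (hdeg0 i j) ?_)
    have h2 := hCs E Y i j e (he i j)
    refine lt_of_le_of_lt degree_le_natDegree ?_
    exact_mod_cast (by omega : (((C s * E) • Y) i j).natDegree < g)
  have hev : ∀ (x η : R), ev2 Ξ x η = 0 → ∀ (f : R[X]) (j : Fin d),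
      ∑ i : Fin d, η ^ (i : ℕ) * ((f • (1 : Matrix (Fin d) (Fin d) R[X])) i j).eval x =
        f.eval x * η ^ (j : ℕ) := by
    intro x η h0 f j
    rw [← hMC, hMev x η h0 (C f) j]
    unfold ev2
    rw [map_C, eval_C]
    rfl
  have hevY : ∀ (x η : R), ev2 Ξ x η = 0 → ∀ (f : R[X]) (j : Fin d),
      ∑ i : Fin d, η ^ (i : ℕ) * ((f • Y) i j).eval x = f.eval x * η * η ^ (j : ℕ) := by
    intro x η h0 f j
    have h1 : f • Y = M (C f * X) := by
      rw [map_mul, hMC, Matrix.smul_mul, one_mul]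
    rw [h1, hMev x η h0 (C f * X) j]
    unfold ev2
    rw [Polynomial.map_mul, map_C, map_X, eval_mul, eval_C, eval_X]
    rfl
  have hzero : ∀ l (j : Fin d), ∑ i : Fin d, η l ^ (i : ℕ) * (F i j).eval (x l) = 0 := by
    intro l j
    have h1 : ∀ i : Fin d, η l ^ (i : ℕ) * (F i j).eval (x l) =
        η l ^ (i : ℕ) * ((G • (1 : Matrix (Fin d) (Fin d) R[X])) i j).eval (x l) -
        η l ^ (i : ℕ) * (((C s * E) • Y) i j).eval (x l) := by
      intro i
      rw [hF, Matrix.sub_apply, eval_sub, mul_sub]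
    rw [Finset.sum_congr rfl fun i _ => h1 i, Finset.sum_sub_distrib, hev _ _ (hxη l),
      hevY _ _ (hxη l), hGx, eval_mul, eval_C]
    ring
  have hzero₀ : ∀ (l : Fin g × Fin d) (j : Fin d),
      ∑ i : Fin d, b l.1 l.2 ^ (i : ℕ) * (F₀ i j).eval (a l.1) = 0 := by
    intro l j
    rw [hF₀, hev _ _ (hab l.1 l.2), hGa, zero_mul]
  -- the determinants
  have hS := hSYLE R (Fin (g * d)) d g h F H finProdFinEquiv.symm hMon hh x
    (fun l i => η l ^ (i : ℕ)) (fun l => ev2 (derivative Ξ) (x l) (η l))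
    (hNONS R d g F hd hMon x (fun l i => η l ^ (i : ℕ)) hx (fun l => pow_zero _) hzero) hzero
    (fun l j => hMev _ _ (hxη l) _ j)
  have hS₀ := hSYLE R (Fin g × Fin d) d g h F₀ H (Equiv.refl _) hMon₀ hh
    (fun l => a l.1) (fun l (i : Fin d) => b l.1 l.2 ^ (i : ℕ))
    (fun l => ev2 (derivative Ξ) (a l.1) (b l.1 l.2)) (hNONZ R d g a b ha hb) hzero₀
    (fun l j => hMev _ _ (hab l.1 l.2) _ j)
  obtain ⟨t, ht⟩ := hSYLC R d g h v F F₀ H ((C s * E₁) • (M q * Y)) ((C s * Z) • Y) 8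
    (fun i j => hCs E₁ _ i j v (hv i j)) (by omega) (by
      have h1 : H * ((C s * E₁) • (M q * Y)) = (C s * (D₁ * E₁)) • Y := by
        rw [Matrix.mul_smul, ← Matrix.mul_assoc, hMq, Matrix.smul_mul, one_mul, smul_smul]
        congr 1
        ring
      have h2 : (C (8 : R) : R[X]) • (C s * Z) • Y = (C s * (8 * Z)) • Y := by
        rw [smul_smul]
        congr 1
        rw [show (C (8 : R) : R[X]) = 8 from map_ofNat C 8]
        ring
      rw [h1, h2, hF₀, hF, hE, add_assoc, ← add_smul, ← mul_add, sub_add_cancel])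
  refine ⟨t, ?_⟩
  rw [hS, hS₀] at ht
  rw [← ht]
  exact (Fintype.prod_prod_type' fun i j => ev2 (derivative Ξ) (a i) (b i j)).symm

end Pool.Agent.XE31.C2
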