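import Mathlib
import Pool.Agent.XE31.C2.StmA

/-!
Project C2: coefficientwise lifts of polynomials, and degrees.
-/

set_option autoImplicit false

namespace Pool.Agent.XE31.C2

open Polynomial

section lp

variable {N W : Type} [Field N] [CommRing W]

/-- The coefficientwise lift. -/
noncomputable def lp (τ : N → W) (f : N[X]) : W[X] :=
  ∑ i ∈ Finset.range (f.natDegree + 1), C (τ (f.coeff i)) * X ^ i

variable {r : W →+* N} {τ : N → W}

theorem lp_coeff (h0 : τ 0 = 0) (f : N[X]) (k : ℕ) : (lp τ f).coeff k = τ (f.coeff k) := by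
  unfold lp
  rw [finsetSum_coeff]
  simp only [coeff_C_mul_X_pow]
  rw [Finset.sum_ite_eq]
  split_ifs with h
  · rfl
  · rw [Finset.mem_range, not_lt] at h
    rw [coeff_eq_zero_of_natDegree_lt (by omega), h0]

theorem lp_map (hW : WD N W r τ) (f : N[X]) : (lp τ f).map r = f := by
  ext k
  rw [coeff_map, lp_coeff hW.zero, hW.sec]

theorem lp_natDegree (hW : WD N W r τ) (f : N[X]) : (lp τ f).natDegree = f.natDegree := by
  apply le_antisymm
  · rw [natDegree_le_iff_coeff_eq_zero]
    intro k hk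
    rw [lp_coeff hW.zero, coeff_eq_zero_of_natDegree_lt hk, hW.zero]
  · conv_lhs => rw [← lp_map hW f]
    exact natDegree_map_le

theorem lp_lc (hW : WD N W r τ) (f : N[X]) : (lp τ f).leadingCoeff = τ f.leadingCoeff := by
  rw [leadingCoeff, lp_natDegree hW, lp_coeff hW.zero]
  rfl

theorem lp_one (hW : WD N W r τ) : lp τ (1 : N[X]) = 1 := by
  ext k
  rw [lp_coeff hW.zero, coeff_one, coeff_one]
  split_ifs
  · exact hW.one
  · exact hW.zero

theorem lp_fix (hW : WD N W r τ) (σ : N ≃+* N) (σ' : W ≃+* W)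
    (h : ∀ x, σ' (τ x) = τ (σ x)) (f : N[X]) (hf : ∀ k, σ (f.coeff k) = f.coeff k) :
    (lp τ f).map (σ' : W →+* W) = lp τ f := by
  ext k
  rw [coeff_map, lp_coeff hW.zero]
  change σ' (τ (f.coeff k)) = _
  rw [h, hf]

theorem ker2 (hW : WD N W r τ) (f g : W[X]) (h : f.map r = g.map r) :
    ∃ u : W[X], f = g + 2 * u := by
  have h1 : ∀ k, ∃ v, f.coeff k - g.coeff k = 2 * v := by
    intro k
    apply hW.ker
    rw [map_sub, ← coeff_map, ← coeff_map, h, sub_self]
  choose v hv using h1
  refine ⟨∑ k ∈ Finset.range (max f.natDegree g.natDegree + 1), C (v k) * X ^ k, ?_⟩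
  ext k
  have h2 : (2 * ∑ k ∈ Finset.range (max f.natDegree g.natDegree + 1), C (v k) * X ^ k :
      W[X]).coeff k = 2 * (if k ∈ Finset.range (max f.natDegree g.natDegree + 1) then v k else 0) := by
    rw [show (2 : W[X]) = C 2 from (map_ofNat C 2).symm, coeff_C_mul, finsetSum_coeff]
    simp only [coeff_C_mul_X_pow]
    rw [Finset.sum_ite_eq]
  rw [coeff_add, h2]
  split_ifs with h3
  · rw [← hv]
    ring
  · rw [Finset.mem_range, not_lt] at h3
    rw [coeff_eq_zero_of_natDegree_lt (by omega), coeff_eq_zero_of_natDegree_lt (by omega)]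
    simp

end lp

section deg

variable {R : Type} [CommRing R]

/-- adding a polynomial of smaller degree -/
theorem add_deg {f g : R[X]} {n : ℕ} (hf : f.natDegree = n) (hg : g.natDegree < n) :
    (f + g).natDegree = n ∧ (f + g).leadingCoeff = f.leadingCoeff := by
  have h1 : g.natDegree < f.natDegree := by rw [hf]; exact hg
  refine ⟨by rw [natDegree_add_eq_left_of_natDegree_lt h1, hf], ?_⟩
  exact leadingCoeff_add_of_degree_lt' (degree_lt_degree h1)

theorem XI_monic [Nontrivial R] (d : ℕ) (a : ℕ → R[X]) (ha : a d = 1) :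
    (XI d a).Monic ∧ (XI d a).natDegree = d := by
  have h1 : XI d a = X ^ d + ∑ k ∈ Finset.range d, C (a k ^ 8) * X ^ k := by
    unfold XI
    rw [Finset.sum_range_succ, ha, one_pow, C_1, one_mul, add_comm]
  have h2 : (∑ k ∈ Finset.range d, C (a k ^ 8) * X ^ k : R[X][X]).degree < (d : WithBot ℕ) := by
    refine (degree_sum_le _ _).trans_lt ?_
    refine (Finset.sup_lt_iff (WithBot.bot_lt_coe d)).2 fun k hk => ?_
    refine (degree_C_mul_X_pow_le _ _).trans_lt ?_
    exact Nat.cast_lt.2 (Finset.mem_range.1 hk)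
  rw [h1]
  exact ⟨monic_X_pow_add h2, by
    rw [natDegree_eq_of_degree_eq_some]
    rw [degree_add_eq_left_of_degree_lt (by rwa [degree_X_pow]), degree_X_pow]⟩

end deg

end Pool.Agent.XE31.C2
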