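import Mathlib
import Pool.Agent.XE31.C2.StmA
import Pool.Agent.XE31.C2.Lft
import Pool.Agent.Y140.AW.Bas

/-!
Project C2: reductions, degrees, invariance.
-/

set_option autoImplicit false
set_option linter.unusedSectionVars false

namespace Pool.Agent.XE31.C2

open Polynomial Pool.Agent.Y140.AW

section red

variable {K N W : Type} [Field K] [CharP K 2] [Field N] [CharP N 2] [Algebra K N] [CommRing W]
  {r : W →+* N} {τ : N → W}

theorem XI_coeff {R : Type} [CommRing R] (d : ℕ) (a : ℕ → R[X]) (k : ℕ) :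
    (XI d a).coeff k = if k ≤ d then a k ^ 8 else 0 := by
  unfold XI
  rw [finsetSum_coeff]
  simp only [coeff_C_mul_X_pow]
  rw [Finset.sum_ite_eq]
  simp only [Finset.mem_range, Nat.lt_succ_iff]

theorem XI_map {R S : Type} [CommRing R] [CommRing S] (φ : R →+* S) (d : ℕ) (a : ℕ → R[X]) :
    (XI d a).map (mapRingHom φ) = XI d (fun k => (a k).map φ) := by
  ext1 k
  rw [coeff_map, XI_coeff, XI_coeff]
  split_ifs
  · rw [map_pow]
    rfl
  · exact map_zero _

/-- The eighth power map. -/
noncomputable def fr8 (K N : Type) [Field K] [Field N] [CharP N 2] [Algebra K N] :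
    K[X] →+* N[X] :=
  (iterateFrobenius N[X] 2 3).comp (mapRingHom (algebraMap K N))

theorem fr8_apply (f : K[X]) : fr8 K N f = (f.map (algebraMap K N)) ^ 8 := by
  change iterateFrobenius N[X] 2 3 (f.map (algebraMap K N)) = _
  rw [iterateFrobenius_def]
  norm_num

theorem XI_red {Θ : K[X][X]} {d : ℕ} (hd : Θ.natDegree = d) :
    XI d (fun k => (Θ.coeff k).map (algebraMap K N)) = Θ.map (fr8 K N) := by
  ext1 k
  rw [XI_coeff, coeff_map, fr8_apply]
  split_ifs with h
  · rfl
  · rw [coeff_eq_zero_of_natDegree_lt (by omega), Polynomial.map_zero, zero_pow (by norm_num)]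

theorem res_red {Θ : K[X][X]} {D₀ : K[X]} {d : ℕ} (hDD : DD Θ D₀ d) (a : ℕ → W[X])
    (ha : ∀ k, (a k).map r = (Θ.coeff k).map (algebraMap K N)) :
    (resultant (XI d a) (derivative (XI d a)) d (d - 1)).map r =
      (D₀.map (algebraMap K N)) ^ 8 := by
  have h1 : (XI d a).map (mapRingHom r) = Θ.map (fr8 K N) := by
    rw [XI_map, ← XI_red hDD.deg]
    congr 1
    funext k
    exact ha k
  have h2 : (derivative (XI d a)).map (mapRingHom r) = (derivative Θ).map (fr8 K N) := by
    rw [← derivative_map, ← derivative_map, h1]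
  have h3 : (mapRingHom r) (resultant (XI d a) (derivative (XI d a)) d (d - 1)) =
      fr8 K N D₀ := by
    rw [← resultant_map_map, h1, h2, resultant_map_map, hDD.res]
  rw [← fr8_apply]
  exact h3

theorem ev2_XI (Θ : K[X][X]) {d : ℕ} (hd : Θ.natDegree = d) (x θ : N) :
    ev2 (XI d (fun k => (Θ.coeff k).map (algebraMap K N))) x (θ ^ 8) = ((tA Θ x).eval θ) ^ 8 := by
  have hfr : ∀ y : N, iterateFrobenius N 2 3 y = y ^ 8 := by
    intro y
    rw [iterateFrobenius_def]
    norm_num
  rw [XI_red hd]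
  unfold ev2 tA
  rw [Polynomial.map_map, eval_map, eval_map, ← hfr, ← hfr, hom_eval₂]
  congr 1
  refine RingHom.ext fun f => ?_
  change (fr8 K N f).eval x = iterateFrobenius N 2 3 (aeval x f)
  rw [hfr, fr8_apply, eval_pow, eval_map_algebraMap]

end red

section deg

variable {R : Type} [CommRing R]

theorem PW_map {S : Type} [CommRing S] (φ : R →+* S) (d : ℕ) (a : ℕ → R[X]) (E G : R[X])
    (s : R) : (PW d a E G s).map φ = PW d (fun k => (a k).map φ) (E.map φ) (G.map φ) (φ s) := by
  unfold PW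
  rw [Polynomial.map_sum]
  refine Finset.sum_congr rfl fun k _ => ?_
  simp only [Polynomial.map_mul, Polynomial.map_pow, map_C]

theorem PW_deg [IsDomain R] (d : ℕ) (a : ℕ → R[X]) (E G : R[X]) (s : R) (g e : ℕ)
    (ha : a d = 1) (hG : G.natDegree = g) (hE : E.natDegree ≤ e)
    (hdeg : ∀ k, 8 * (a k).natDegree + e < g) :
    (PW d a E G s).natDegree = d * g ∧ (PW d a E G s).leadingCoeff = G.leadingCoeff ^ d := by
  have h1 : PW d a E G s = G ^ d + ∑ k ∈ Finset.range d, a k ^ 8 * G ^ k * (C s * E) ^ (d - k) := by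
    unfold PW
    rw [Finset.sum_range_succ, ha, one_pow, one_mul, Nat.sub_self, pow_zero, mul_one, add_comm]
  rcases Nat.eq_zero_or_pos d with rfl | hd
  · rw [h1]
    simp
  have hg : 0 < g := lt_of_le_of_lt (Nat.zero_le _) (hdeg 0)
  have h2 : (∑ k ∈ Finset.range d, a k ^ 8 * G ^ k * (C s * E) ^ (d - k)).natDegree < d * g := by
    have hpos : 0 < d * g := Nat.mul_pos hd hg
    have h3 : (∑ k ∈ Finset.range d, a k ^ 8 * G ^ k * (C s * E) ^ (d - k)).natDegree ≤
        d * g - 1 := by
      refine natDegree_sum_le_of_forall_le _ _ fun k hk => ?_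
      have hk' := Finset.mem_range.1 hk
      have e1 : (a k ^ 8).natDegree ≤ 8 * (a k).natDegree := natDegree_pow_le
      have e2 : (G ^ k).natDegree ≤ k * g := by rw [← hG]; exact natDegree_pow_le
      have e3 : ((C s * E) ^ (d - k)).natDegree ≤ (d - k) * e :=
        natDegree_pow_le.trans (Nat.mul_le_mul_left _ ((natDegree_C_mul_le _ _).trans hE))
      have e4 : (a k ^ 8 * G ^ k * (C s * E) ^ (d - k)).natDegree ≤
          8 * (a k).natDegree + k * g + (d - k) * e :=
        natDegree_mul_le.trans (Nat.add_le_add (natDegree_mul_le.trans (Nat.add_le_add e1 e2)) e3)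
      obtain ⟨c, hc⟩ : ∃ c, d = k + 1 + c := ⟨d - k - 1, by omega⟩
      have e5 : d - k = c + 1 := by omega
      have e6 := hdeg k
      have e7 : c * e ≤ c * g := Nat.mul_le_mul_left c (by omega)
      have e8 : d * g = k * g + g + c * g := by rw [hc]; ring
      have e9 : (d - k) * e = c * e + e := by rw [e5]; ring
      rw [e9] at e4
      omega
    omega
  have h4 := add_deg (f := G ^ d) (n := d * g) (by rw [natDegree_pow, hG]) h2
  rw [h1]
  refine ⟨h4.1, ?_⟩
  rw [h4.2, leadingCoeff_pow]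

end deg

end Pool.Agent.XE31.C2
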