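import Mathlib
import Pool.Agent.XE31.C2.StmA
import Pool.Agent.XE31.C2.Lft

/-!
Project C2: small lemmas for the parity theorem.
-/

set_option autoImplicit false

namespace Pool.Agent.XE31.C2

open Polynomial

section

variable {R : Type} [CommRing R]

theorem prod_add_eight {ι : Type} (S : Finset ι) (a b : ι → R) :
    ∃ q : R, ∏ i ∈ S, (a i + 8 * b i) = ∏ i ∈ S, a i + 8 * q := by
  classical
  induction S using Finset.induction_on with
  | empty => exact ⟨0, by simp⟩
  | insert i S hi ih =>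
    obtain ⟨q, hq⟩ := ih
    refine ⟨a i * q + b i * ∏ i ∈ S, a i + 8 * b i * q, ?_⟩
    rw [Finset.prod_insert hi, Finset.prod_insert hi, hq]
    ring

theorem eval_der_prod {n : ℕ} (c : R) (x : Fin n → R) (l : Fin n) :
    (derivative (C c * ∏ j, (X - C (x j)))).eval (x l) =
      c * ∏ j ∈ Finset.univ.erase l, (x l - x j) := by
  classical
  rw [derivative_C_mul, eval_mul, eval_C, ← Finset.mul_prod_erase Finset.univ _ (Finset.mem_univ l),
    derivative_mul, eval_add, eval_mul, eval_mul, derivative_sub, derivative_X, derivative_C,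
    sub_zero, eval_one, one_mul, eval_sub, eval_X, eval_C, sub_self, zero_mul, add_zero,
    eval_prod]
  congr 1
  refine Finset.prod_congr rfl fun j _ => ?_
  rw [eval_sub, eval_X, eval_C]

theorem eval_prod_self {n : ℕ} (c : R) (x : Fin n → R) (l : Fin n) :
    (C c * ∏ j, (X - C (x j))).eval (x l) = 0 := by
  classical
  rw [eval_mul, ← Finset.mul_prod_erase Finset.univ _ (Finset.mem_univ l), eval_mul, eval_sub,
    eval_X, eval_C, eval_C, sub_self, zero_mul, mul_zero]

theorem exists_of_eval_prod [IsDomain R] {n : ℕ} (c : R) (hc : c ≠ 0) (x : Fin n → R) (y : R)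
    (h : (C c * ∏ j, (X - C (x j))).eval y = 0) : ∃ j, y = x j := by
  rw [eval_mul, eval_C, eval_prod] at h
  obtain ⟨j, -, hj⟩ := Finset.prod_eq_zero_iff.1 ((mul_eq_zero.1 h).resolve_left hc)
  rw [eval_sub, eval_X, eval_C, sub_eq_zero] at hj
  exact ⟨j, hj⟩

theorem res_prod [IsDomain R] {g δ : ℕ} (G D₁ : R[X]) (a : Fin g → R) (hD : D₁.natDegree ≤ δ)
    (hG : G = C G.leadingCoeff * ∏ i, (X - C (a i))) :
    resultant G D₁ g δ = G.leadingCoeff ^ δ * ∏ i, D₁.eval (a i) := by
  have h1 : (∏ i, (X - C (a i)) : R[X]).natDegree = g := by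
    rw [natDegree_prod_of_monic _ _ fun i _ => monic_X_sub_C _]
    simp
  have h2 := resultant_prod_left Finset.univ (fun i : Fin g => (X - C (a i) : R[X])) D₁ δ
    (by simp) hD
  rw [h1] at h2
  conv_lhs => rw [hG]
  rw [resultant_C_mul_left, h2]
  congr 1
  refine Finset.prod_congr rfl fun i _ => ?_
  rw [natDegree_X_sub_C, resultant_X_sub_C_left _ _ _ hD]

theorem evr {S : Type} [CommRing S] (r : R →+* S) (f : R[X]) (y : R) :
    (f.map r).eval (r y) = r (f.eval y) := by
  rw [eval_map, eval₂_at_apply]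

theorem der_G (D G₁ : R[X]) (m : ℕ) (ν : Fin m → R) :
    ∃ Q, derivative (G₁ ^ 8 + D ^ 8 * (X + ∑ i : Fin m, C (ν i) * X ^ (8 * (i : ℕ)))) =
      D ^ 8 + 8 * Q := by
  have h1 : ∀ f : R[X], derivative (f ^ 8) = 8 * (f ^ 7 * derivative f) := by
    intro f
    rw [derivative_pow]
    push_cast
    ring_nf
    rw [show (C (8 : R) : R[X]) = 8 from map_ofNat C 8]
    ring
  have h2 : ∀ i : Fin m, ∃ q, derivative (C (ν i) * X ^ (8 * (i : ℕ)) : R[X]) = 8 * q := by
    intro i
    refine ⟨C (ν i) * ((X ^ (i : ℕ)) ^ 7 * derivative (X ^ (i : ℕ))), ?_⟩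
    rw [derivative_C_mul, mul_comm 8 (i : ℕ), pow_mul, h1]
    ring
  choose q hq using h2
  refine ⟨G₁ ^ 7 * derivative G₁ + D ^ 7 * derivative D *
    (X + ∑ i : Fin m, C (ν i) * X ^ (8 * (i : ℕ))) + D ^ 8 * ∑ i, q i, ?_⟩
  rw [derivative_add, derivative_mul, h1, h1, derivative_add, derivative_X, derivative_sum,
    Finset.sum_congr rfl fun i _ => hq i, ← Finset.mul_sum]
  ring

end

end Pool.Agent.XE31.C2
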