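import Mathlib
import Pool.Agent.XE31.C2.Meq
import Pool.Agent.XE31.C2.Red
import Pool.Agent.XE31.C2.Sml
import Pool.Agent.Y730.AW.Zero

/-!
Project C2: the parity theorem from its pieces.
-/

set_option autoImplicit false
set_option linter.unusedSectionVars false

namespace Pool.Agent.XE31.C2

open Polynomial Pool.Agent.Y140.AW

/-- PARITY in characteristic 2, exponent 8. -/
def St_par2 : Prop :=
  ∀ (K N : Type) [Field K] [CharP K 2] [Field N] [IsAlgClosed N] [Algebra K N] (Θ : K[X][X])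
    (D₀ : K[X]) (d m : ℕ), DD Θ D₀ d → ∀ (ν : Fin m → N) (s : N), s ≠ 0 →
    ∃ B₀ : ℕ, ∀ B ≥ B₀, ∀ x θ : Fin (d * (8 * (B + (D₀ ^ 4).natDegree))) → N,
      Function.Injective x → (∀ l, IsPt Θ (D₀ ^ 4) 8 B ν s (x l) (θ l)) →
      ∀ σ : N ≃ₐ[K] N, σ s = s → (∀ i, σ (ν i) = ν i) →
      ∀ π : Equiv.Perm (Fin (d * (8 * (B + (D₀ ^ 4).natDegree)))), (∀ l, σ (x l) = x (π l)) →
        Equiv.Perm.sign π = 1

/-- The pieces. -/
structure Pcs : Prop where
  wit : St_wit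
  root : St_root
  sgnv : St_sgnv
  sq : St_sq
  der : St_der
  eta : St_eta
  res : St_res8
  eig : St_eig
  nons : St_nons
  nonz : St_nonz
  syle : St_syle
  sylc : St_sylc
  zer : St_zer

section lift

variable {N W : Type} [Field N] [CharP N 2] [IsAlgClosed N] [CommRing W] {r : W →+* N}
  {τ : N → W}

/-- The polynomial `G` over `W`. -/
noncomputable def GW (D : W[X]) (B : ℕ) {m : ℕ} (ν : Fin m → W) : W[X] :=
  (X ^ B * D + 1) ^ 8 + D ^ 8 * (X + ∑ i : Fin m, C (ν i) * X ^ (8 * (i : ℕ)))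

theorem GW_map {R : Type} [CommRing R] (φ : W →+* R) (D : W[X]) (B : ℕ) {m : ℕ}
    (ν : Fin m → W) : (GW D B ν).map φ = GW (D.map φ) B (fun i => φ (ν i)) := by
  unfold GW
  simp only [Polynomial.map_add, Polynomial.map_mul, Polynomial.map_pow, Polynomial.map_sum,
    Polynomial.map_X, Polynomial.map_C, Polynomial.map_one]

theorem GW_eq {K : Type} [Field K] [Algebra K N] (D : K[X]) (B : ℕ) {m : ℕ} (ν : Fin m → N) :
    GW (D.map (algebraMap K N)) B ν = GG D 8 B ν := by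
  unfold GW GG
  ring

theorem GW_deg (hW : WD N W r τ) (f : N[X]) (hf : f ≠ 0) (B m : ℕ) (ν : Fin m → W)
    (hB : (X + ∑ i : Fin m, C (ν i) * X ^ (8 * (i : ℕ)) : W[X]).natDegree < 8 * B) :
    (X ^ B * lp τ f ^ 4 + 1 : W[X]).natDegree = B + 4 * f.natDegree ∧
    (X ^ B * lp τ f ^ 4 + 1 : W[X]) ≠ 0 ∧
    (GW (lp τ f ^ 4) B ν).natDegree = 8 * (B + 4 * f.natDegree) ∧
    (GW (lp τ f ^ 4) B ν).leadingCoeff = (τ f.leadingCoeff) ^ 32 := by
  have hdom := hW.dom
  have hl0 : lp τ f ≠ 0 := by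
    intro h0
    apply hf
    rw [← lp_map hW f, h0, Polynomial.map_zero]
  have hB1 : 0 < B := by omega
  have h1 : (X ^ B * lp τ f ^ 4 : W[X]).natDegree = B + 4 * f.natDegree := by
    rw [natDegree_mul (pow_ne_zero _ X_ne_zero) (pow_ne_zero _ hl0), natDegree_X_pow,
      natDegree_pow, lp_natDegree hW]
  have h2 : (X ^ B * lp τ f ^ 4 : W[X]).leadingCoeff = (τ f.leadingCoeff) ^ 4 := by
    rw [leadingCoeff_mul, leadingCoeff_X_pow, one_mul, leadingCoeff_pow, lp_lc hW]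
  have h3 := add_deg (f := (X ^ B * lp τ f ^ 4 : W[X])) (g := 1) h1 (by
    rw [natDegree_one]
    omega)
  have h30 : (X ^ B * lp τ f ^ 4 + 1 : W[X]) ≠ 0 := by
    intro h0
    have h4 := h3.1
    rw [h0, natDegree_zero] at h4
    omega
  have h5 : ((X ^ B * lp τ f ^ 4 + 1 : W[X]) ^ 8).natDegree = 8 * (B + 4 * f.natDegree) := by
    rw [natDegree_pow, h3.1]
  have h6 : ((lp τ f ^ 4) ^ 8 * (X + ∑ i : Fin m, C (ν i) * X ^ (8 * (i : ℕ))) :
      W[X]).natDegree < 8 * (B + 4 * f.natDegree) := by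
    refine natDegree_mul_le.trans_lt ?_
    rw [natDegree_pow, natDegree_pow, lp_natDegree hW]
    omega
  have h7 := add_deg h5 h6
  refine ⟨h3.1, h30, h7.1, ?_⟩
  have h8 := h7.2
  unfold GW
  rw [h8, leadingCoeff_pow, h3.2, h2, ← pow_mul]

end lift

end Pool.Agent.XE31.C2
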