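import Mathlib
import Pool.Agent.XE31.C2.Par2

/-!
Project C2: the parity theorem from its pieces (end).
-/

set_option autoImplicit false
set_option linter.unusedSectionVars false

namespace Pool.Agent.XE31.C2

open Polynomial Pool.Agent.Y140.AW

/-- The final computation in `W`. -/
theorem fin_comp {N W : Type} [Field N] [CharP N 2] [CommRing W] {r : W →+* N} {τ : N → W}
    (h : Pcs) (hW : WD N W r τ) (d g b δ : ℕ) (hd : 0 < d) (hg : g = 8 * b)
    (x' : Fin (d * g) → W) (hx' : Function.Injective (fun l => r (x' l)))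
    (E U M Q : Fin (d * g) → W) (Dl : Fin (d * g) → W) (s cP lam : W) (hE : ∀ l, E l = Dl l ^ 8)
    (hU : ∀ l, U l = (s * E l) ^ (d - 1) * M l)
    (hder : ∀ l, cP * ∏ j ∈ Finset.univ.erase l, (x' l - x' j) = E l * U l + 8 * Q l)
    (hcP : r cP ≠ 0) (hlam : r lam ≠ 0) (M₀ t R₁ t' : W) (hM : M₀ = ∏ l, M l + 8 * t)
    (hM₀ : (lam ^ 8) ^ δ * M₀ = R₁ ^ 8 + 8 * t')
    (σ : W ≃+* W) (π : Equiv.Perm (Fin (d * g))) (hσx : ∀ l, σ (x' l) = x' (π l))
    (hσD : ∀ l, σ (Dl l) = Dl (π l)) (hσs : σ s = s) (hσc : σ cP = cP) (hσl : σ lam = lam)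
    (hσR : σ R₁ = R₁) : Equiv.Perm.sign π = 1 := by
  classical
  have hdom := hW.dom
  obtain ⟨n, hn⟩ : ∃ n, n = d * g := ⟨_, rfl⟩
  obtain ⟨V, hV, hVσ⟩ := h.sgnv W (d * g) ⟨d * (2 * b), by rw [hg]; ring⟩ x'
  have h1 : cP ^ (d * g) * V ^ 2 = ∏ l, (E l * U l + 8 * Q l) := by
    rw [hV, ← Finset.prod_congr rfl fun l _ => hder l, Finset.prod_mul_distrib,
      Finset.prod_const, Finset.card_univ, Fintype.card_fin]
  obtain ⟨q, hq⟩ := prod_add_eight Finset.univ (fun l => E l * U l) Q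
  have h2 : ∏ l, E l * U l = (∏ l, Dl l) ^ (8 * d) * s ^ (d * g * (d - 1)) * ∏ l, M l := by
    have h3 : ∀ l, E l * U l = Dl l ^ (8 * d) * s ^ (d - 1) * M l := by
      intro l
      rw [hU, hE]
      obtain ⟨e, rfl⟩ : ∃ e, d = e + 1 := ⟨d - 1, by omega⟩
      rw [Nat.add_sub_cancel]
      ring
    rw [Finset.prod_congr rfl fun l _ => h3 l, Finset.prod_mul_distrib,
      Finset.prod_mul_distrib, Finset.prod_pow, Finset.prod_const, Finset.card_univ,
      Fintype.card_fin, ← pow_mul, mul_comm (d - 1)]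
  have h2' : ∏ l, (E l * U l) = (∏ l, Dl l) ^ (8 * d) * s ^ (d * g * (d - 1)) * ∏ l, M l := h2
  obtain ⟨v, hv⟩ : ∃ v, v = lam ^ (4 * δ) * cP ^ (d * (4 * b)) * V := ⟨_, rfl⟩
  obtain ⟨c, hc⟩ : ∃ c, c = (∏ l, Dl l) ^ (4 * d) * s ^ (d * (4 * b) * (d - 1)) * R₁ ^ 4 :=
    ⟨_, rfl⟩
  obtain ⟨A, hA⟩ : ∃ A, A = (∏ l, Dl l) ^ (8 * d) * s ^ (d * g * (d - 1)) := ⟨_, rfl⟩
  have h4 : v ^ 2 = c ^ 2 + 8 * (A * t' - (lam ^ 8) ^ δ * (A * t) + (lam ^ 8) ^ δ * q) := by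
    have e1 : v ^ 2 = (lam ^ 8) ^ δ * (cP ^ (d * g) * V ^ 2) := by
      have e0 : d * g = 2 * (d * (4 * b)) := by rw [hg]; ring
      rw [hv, e0]
      ring
    have e2 : c ^ 2 = A * R₁ ^ 8 := by
      have e0 : d * g * (d - 1) = 2 * (d * (4 * b) * (d - 1)) := by rw [hg]; ring
      rw [hc, hA, e0]
      ring
    have e3 : ∏ l, M l = M₀ - 8 * t := by rw [hM]; ring
    rw [e1, h1, hq, h2', e3, ← hA, e2]
    linear_combination A * hM₀
  have hrV : r V ≠ 0 := by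
    intro h0
    have h5 := congrArg r hV
    rw [map_pow, h0, map_prod] at h5
    have h6 : ∏ l, r (∏ j ∈ Finset.univ.erase l, (x' l - x' j)) ≠ 0 := by
      rw [Finset.prod_ne_zero_iff]
      intro l _
      rw [map_prod, Finset.prod_ne_zero_iff]
      intro j hj
      rw [map_sub, sub_ne_zero]
      intro h7
      exact (Finset.ne_of_mem_erase hj) (hx' h7).symm
    exact h6 (by rw [← h5]; norm_num)
  have hrv : r v ≠ 0 := by
    rw [hv, map_mul, map_mul, map_pow, map_pow]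
    exact mul_ne_zero (mul_ne_zero (pow_ne_zero _ hlam) (pow_ne_zero _ hcP)) hrV
  have hσc' : σ c = c := by
    have h8 : σ (∏ l, Dl l) = ∏ l, Dl l := by
      rw [map_prod, Finset.prod_congr rfl fun l _ => hσD l]
      exact Equiv.prod_comp π Dl
    rw [hc, map_mul, map_mul, map_pow, map_pow, map_pow, h8, hσs, hσR]
  refine h.sq N W r τ hW σ v c _ (Equiv.Perm.sign π) h4 hrv hσc' ?_
  rw [hv, map_mul, map_mul, map_pow, map_pow, hσc, hσl, hVσ σ π hσx, mul_smul_comm]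

theorem par2_of (h : Pcs) : St_par2 := by
  classical
  intro K N _ _ _ _ _ Θ D₀ d m hDD ν s hs
  have hcN : CharP N 2 := charP_of_injective_algebraMap (algebraMap K N).injective 2
  obtain ⟨W, iW, r, τ, hW⟩ := h.wit N
  have hdom := hW.dom
  obtain ⟨f0, hf0⟩ : ∃ f0, f0 = D₀.map (algebraMap K N) := ⟨_, rfl⟩
  have hf0ne : f0 ≠ 0 := by
    rw [hf0]
    exact (Polynomial.map_ne_zero_iff (algebraMap K N).injective).2 hDD.ne
  have hf0d : f0.natDegree = D₀.natDegree := by rw [hf0, natDegree_map]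
  obtain ⟨a, ha⟩ : ∃ a : ℕ → W[X], a = fun k => lp τ ((Θ.coeff k).map (algebraMap K N)) :=
    ⟨_, rfl⟩
  have har : ∀ k, (a k).map r = (Θ.coeff k).map (algebraMap K N) := by
    intro k
    rw [ha]
    exact lp_map hW _
  have had : a d = 1 := by
    have h1 : Θ.coeff d = 1 := by
      rw [← hDD.deg]
      exact hDD.monic
    rw [ha]
    change lp τ ((Θ.coeff d).map (algebraMap K N)) = 1
    rw [h1, Polynomial.map_one, lp_one hW]
  have hadeg : ∀ k, (a k).natDegree = (Θ.coeff k).natDegree := by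
    intro k
    rw [ha]
    change (lp τ ((Θ.coeff k).map (algebraMap K N))).natDegree = _
    rw [lp_natDegree hW, natDegree_map]
  obtain ⟨hΞm, hΞd⟩ := XI_monic d a had
  obtain ⟨D₁, hD₁⟩ : ∃ D₁, resultant (XI d a) (derivative (XI d a)) d (d - 1) = D₁ := ⟨_, rfl⟩
  have hD₁r : D₁.map r = f0 ^ 8 := by
    rw [← hD₁, hf0]
    exact res_red hDD a har
  obtain ⟨u, hu⟩ := ker2 hW D₁ (lp τ f0 ^ 8) (by rw [hD₁r, Polynomial.map_pow, lp_map hW])
  obtain ⟨D, hD⟩ : ∃ D : W[X], D = lp τ f0 ^ 4 := ⟨_, rfl⟩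
  have hDr : D.map r = (D₀ ^ 4).map (algebraMap K N) := by
    rw [hD, Polynomial.map_pow, lp_map hW, hf0, Polynomial.map_pow]
  obtain ⟨E₁, hE₁⟩ : ∃ E₁ : W[X], E₁ = D₁ ^ 3 - 8 * D₁ ^ 2 * u + 24 * D₁ * u ^ 2 - 32 * u ^ 3 :=
    ⟨_, rfl⟩
  have hE : D ^ 8 = D₁ * E₁ + 8 * (2 * u ^ 4) := by
    have h1 : lp τ f0 ^ 8 = D₁ - 2 * u := by rw [hu]; ring
    have h2 : D ^ 8 = (lp τ f0 ^ 8) ^ 4 := by rw [hD]; ring
    rw [h2, h1, hE₁]
    ring
  obtain ⟨g₀, hg₀⟩ := meq h.eig h.nons h.nonz h.syle h.sylc (XI d a) d hDD.pos hΞm hΞd D₁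
    (D ^ 8) E₁ (2 * u ^ 4) hD₁ hE
  obtain ⟨W₀, hW₀⟩ : ∃ W₀ : W[X], W₀ = X + ∑ i : Fin m, C (τ (ν i)) * X ^ (8 * (i : ℕ)) :=
    ⟨_, rfl⟩
  obtain ⟨L, hL⟩ : ∃ L : ℕ, ∀ k, (Θ.coeff k).natDegree ≤ L := by
    refine ⟨(Finset.range (Θ.natDegree + 1)).sup fun k => (Θ.coeff k).natDegree, fun k => ?_⟩
    by_cases hk : k ≤ Θ.natDegree
    · exact Finset.le_sup (f := fun k => (Θ.coeff k).natDegree)
        (Finset.mem_range.2 (Nat.lt_succ_of_le hk))
    · rw [coeff_eq_zero_of_natDegree_lt (by omega), natDegree_zero]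
      exact Nat.zero_le _
  suffices key : ∀ B ≥ g₀ + L + W₀.natDegree + (E₁ * W₀).natDegree + D₁.natDegree + 1,
      ∀ b, b = B + (D₀ ^ 4).natDegree → ∀ x θ : Fin (d * (8 * b)) → N,
      Function.Injective x → (∀ l, IsPt Θ (D₀ ^ 4) 8 B ν s (x l) (θ l)) →
      ∀ σ : N ≃ₐ[K] N, σ s = s → (∀ i, σ (ν i) = ν i) →
      ∀ π : Equiv.Perm (Fin (d * (8 * b))), (∀ l, σ (x l) = x (π l)) →
        Equiv.Perm.sign π = 1 from
    ⟨g₀ + L + W₀.natDegree + (E₁ * W₀).natDegree + D₁.natDegree + 1,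
      fun B hB x θ hx hpt σ hσs hσν π hσx => key B hB _ rfl x θ hx hpt σ hσs hσν π hσx⟩
  intro B hB b hb x θ hx hpt σ hσs hσν π hσx
  obtain ⟨g, hg⟩ : ∃ g, g = 8 * b := ⟨_, rfl⟩
  have hDdeg : (D₀ ^ 4).natDegree = 4 * f0.natDegree := by rw [natDegree_pow, hf0d]
  -- the polynomials `G₁` and `G`
  obtain ⟨hG₁d, hG₁0, hGd, hGl⟩ := GW_deg hW f0 hf0ne B m (fun i => τ (ν i)) (by
    rw [← hW₀]
    omega)
  rw [← hDdeg, ← hb] at hG₁d hGd
  rw [← hD] at hG₁d hG₁0 hGd hGl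
  obtain ⟨G, hG⟩ : ∃ G : W[X], G = GW D B (fun i => τ (ν i)) := ⟨_, rfl⟩
  obtain ⟨G₁, hG₁⟩ : ∃ G₁ : W[X], G₁ = X ^ B * D + 1 := ⟨_, rfl⟩
  rw [← hG] at hGd hGl
  rw [← hG₁] at hG₁d hG₁0
  have hGG₁ : G = G₁ ^ 8 + D ^ 8 * W₀ := by rw [hG, hG₁, hW₀]; rfl
  have hGr : G.map r = GG (D₀ ^ 4) 8 B ν := by
    rw [hG, GW_map, hDr, ← GW_eq]
    congr 1
    funext i
    exact hW.sec _
  have hlc : f0.leadingCoeff ≠ 0 := leadingCoeff_ne_zero.2 hf0ne
  have hGl0 : r G.leadingCoeff ≠ 0 := by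
    rw [hGl, map_pow, hW.sec]
    exact pow_ne_zero _ hlc
  -- the polynomial `P`
  obtain ⟨P, hP⟩ : ∃ P : W[X], P = PW d a (D ^ 8) G (τ s) := ⟨_, rfl⟩
  obtain ⟨hPd, hPl⟩ := PW_deg d a (D ^ 8) G (τ s) (8 * b) (8 * (D₀ ^ 4).natDegree) had hGd (by
    rw [natDegree_pow, hD, natDegree_pow, lp_natDegree hW, hDdeg]) (fun k => by
    rw [hadeg]
    have := hL k
    omega)
  rw [← hP] at hPd hPl
  have hPl0 : r P.leadingCoeff ≠ 0 := by
    rw [hPl, map_pow]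
    exact pow_ne_zero _ hGl0
  have hPr : P.map r = PW d (fun k => (Θ.coeff k).map (algebraMap K N))
      (((D₀ ^ 4).map (algebraMap K N)) ^ 8) (GG (D₀ ^ 4) 8 B ν) s := by
    rw [hP, PW_map, Polynomial.map_pow, hDr, hGr, hW.sec]
    congr 1
    funext k
    exact har k
  have hPx : ∀ l, (P.map r).eval (x l) = 0 := by
    intro l
    obtain ⟨h1, -, h3⟩ := hpt l
    have h4 := (h.eta N d (fun k => (Θ.coeff k).map (algebraMap K N))
      (((D₀ ^ 4).map (algebraMap K N)) ^ 8) (GG (D₀ ^ 4) 8 B ν) s (x l) (θ l ^ 8) hDD.pos (by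
        rw [h3, eval_pow, eval_map_algebraMap]
        ring)).1
    rw [hPr, h4, ev2_XI Θ hDD.deg, h1]
    ring
  obtain ⟨x', hx'r, hPx'⟩ := h.root N W r τ hW P (d * (8 * b)) hPd hPl0 x hx hPx
  have hx'inj : Function.Injective x' := by
    intro l j hlj
    apply hx
    rw [← hx'r, ← hx'r, hlj]
  have hP0 : ∀ l, P.eval (x' l) = 0 := by
    intro l
    rw [hPx']
    exact eval_prod_self _ _ _
  -- the values of `E`
  have hEl : ∀ l, IsUnit (τ s * (D ^ 8).eval (x' l)) := by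
    intro l
    apply hW.unit
    rw [map_mul, hW.sec, ← evr, hx'r, Polynomial.map_pow, hDr, eval_pow, eval_map_algebraMap]
    exact mul_ne_zero hs (pow_ne_zero _ (hpt l).2.1)
  choose w hw using fun l => (hEl l).exists_right_inv
  obtain ⟨η, hη⟩ : ∃ η : Fin (d * (8 * b)) → W, ∀ l,
      G.eval (x' l) = τ s * (D ^ 8).eval (x' l) * η l := by
    refine ⟨fun l => w l * G.eval (x' l), fun l => ?_⟩
    rw [← mul_assoc, hw, one_mul]
  have heta := fun l => h.eta W d a (D ^ 8) G (τ s) (x' l) (η l) hDD.pos (hη l)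
  have hΞ0 : ∀ l, ev2 (XI d a) (x' l) (η l) = 0 := by
    intro l
    have h1 := (heta l).1
    rw [← hP, hP0] at h1
    exact (mul_eq_zero.1 h1.symm).resolve_left (pow_ne_zero _ (hEl l).ne_zero)
  -- the points over `s = 0`
  have hGone : ∀ z : N, aeval z (D₀ ^ 4) = 0 → (GG (D₀ ^ 4) 8 B ν).eval z = 1 := by
    intro z hz
    exact Pool.Agent.Y730.AW.eval_GG (by norm_num) ν (by rw [eval_map_algebraMap]; exact hz)
  have hDz : ∀ z : N, (GG (D₀ ^ 4) 8 B ν).eval z = 0 → aeval z (D₀ ^ 4) ≠ 0 := by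
    intro z hz h0
    rw [hGone z h0] at hz
    exact one_ne_zero hz
  obtain ⟨a₀, b₀, ha₀, hb₀, hGa, hab, hprod⟩ := h.zer h.root N W r τ hW (XI d a) d (8 * b) G D₁
    hΞm hΞd hDD.pos hD₁ hGd hGl0 (fun z hz => by
      rw [hGr] at hz ⊢
      rw [Pool.Agent.Y730.AW.der_GG (by
        have h2 : ((2 : ℕ) : N) = 0 := CharP.cast_eq_zero N 2
        push_cast at h2 ⊢
        rw [show (8 : N) = 2 * 4 by norm_num, h2, zero_mul]), eval_pow, eval_map_algebraMap]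
      exact pow_ne_zero _ (hDz z hz)) (fun z hz => by
      rw [hGr] at hz
      rw [hD₁r, eval_pow, hf0, eval_map_algebraMap]
      refine pow_ne_zero _ fun h0 => hDz z hz ?_
      rw [map_pow, h0, zero_pow (by norm_num)])
  have hGa0 : ∀ i, G.eval (a₀ i) = 0 := by
    intro i
    rw [hGa]
    exact eval_prod_self _ _ _
  -- the comparison modulo 8
  obtain ⟨μ, hμ⟩ := (hW.unit _ hGl0).exists_left_inv
  have hμ0 : μ ≠ 0 := by
    rintro rfl
    rw [zero_mul] at hμ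
    exact zero_ne_one hμ
  have hmon : (C μ * G).Monic := by
    rw [Monic, leadingCoeff_mul, leadingCoeff_C, hμ]
  have hmond : (C μ * G).natDegree = 8 * b := by
    rw [natDegree_C_mul hμ0, hGd]
  let e : Fin (8 * b * d) ≃ Fin (d * (8 * b)) := finCongr (mul_comm _ _)
  obtain ⟨t, ht⟩ := hg₀ (8 * b) (by omega) (C μ * G) hmon hmond (μ * τ s) (fun l => x' (e l))
    (fun l => η (e l)) (hx'inj.comp e.injective) (fun l => hΞ0 _) (fun l => by
      rw [eval_mul, eval_C, hη]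
      ring) a₀ b₀ ha₀ hb₀ (fun i => by rw [eval_mul, hGa0, mul_zero]) hab
  have hMe : ∏ l, ev2 (derivative (XI d a)) (x' (e l)) (η (e l)) =
      ∏ l, ev2 (derivative (XI d a)) (x' l) (η l) :=
    Equiv.prod_comp e (fun l => ev2 (derivative (XI d a)) (x' l) (η l))
  rw [hMe, hprod] at ht
  -- the resultants
  obtain ⟨t', ht'⟩ := h.res W D₁.natDegree b D₁ (D ^ 8) E₁ (2 * u ^ 4) G G₁ W₀ le_rfl hG₁d hG₁0
    hE hGG₁ (by omega)
  rw [res_prod G D₁ a₀ le_rfl hGa] at ht'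
  -- the derivative
  obtain ⟨Q₁, hQ₁⟩ := der_G D G₁ m (fun i => τ (ν i))
  rw [← hW₀, ← hGG₁] at hQ₁
  obtain ⟨Q, hQ⟩ := h.der W d a D G Q₁ (τ s) hQ₁
  rw [← hP] at hQ
  -- the automorphism
  obtain ⟨σ', hσ'r, hσ'τ⟩ := hW.aut (σ : N ≃+* N)
  have hfixK : ∀ (f : K[X]) (k : ℕ), (σ : N ≃+* N) ((f.map (algebraMap K N)).coeff k) =
      (f.map (algebraMap K N)).coeff k := by
    intro f k
    rw [coeff_map]
    exact σ.commutes _
  have hafix : ∀ k, (a k).map (σ' : W →+* W) = a k := by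
    intro k
    rw [ha]
    exact lp_fix hW (σ : N ≃+* N) σ' hσ'τ _ (hfixK _)
  have hDfix : D.map (σ' : W →+* W) = D := by
    rw [hD, Polynomial.map_pow, lp_fix hW (σ : N ≃+* N) σ' hσ'τ f0 (by
      rw [hf0]
      exact hfixK D₀)]
  have hsfix : σ' (τ s) = τ s := by
    rw [hσ'τ]
    change τ (σ s) = _
    rw [hσs]
  have hGfix : G.map (σ' : W →+* W) = G := by
    rw [hG, GW_map, hDfix]
    congr 1
    funext i
    change σ' (τ (ν i)) = _
    rw [hσ'τ]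
    change τ (σ (ν i)) = _
    rw [hσν]
  have hG₁fix : G₁.map (σ' : W →+* W) = G₁ := by
    rw [hG₁, Polynomial.map_add, Polynomial.map_mul, Polynomial.map_pow, map_X,
      Polynomial.map_one, hDfix]
  have hPfix : P.map (σ' : W →+* W) = P := by
    rw [hP, PW_map, Polynomial.map_pow, hDfix, hGfix]
    have h1 : (fun k => (a k).map (σ' : W →+* W)) = a := funext hafix
    have h2 : (σ' : W →+* W) (τ s) = τ s := hsfix
    rw [h1, h2]
  have hΞfix : (XI d a).map (mapRingHom (σ' : W →+* W)) = XI d a := by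
    rw [XI_map]
    congr 1
    exact funext hafix
  have hD₁fix : D₁.map (σ' : W →+* W) = D₁ := by
    have h1 : (mapRingHom (σ' : W →+* W)) (resultant (XI d a) (derivative (XI d a)) d (d - 1)) =
        resultant (XI d a) (derivative (XI d a)) d (d - 1) := by
      rw [← resultant_map_map, ← derivative_map, hΞfix]
    rw [← hD₁]
    exact h1
  have hσx' : ∀ l, σ' (x' l) = x' (π l) := by
    intro l
    have h1 : P.eval (σ' (x' l)) = 0 := by
      have h2 := evr (σ' : W →+* W) P (x' l)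
      rw [hPfix, hP0, map_zero] at h2
      exact h2
    rw [hPx'] at h1
    obtain ⟨j, hj⟩ := exists_of_eval_prod _ (fun h0 => hPl0 (by rw [h0, map_zero])) x' _ h1
    have h3 : x j = x (π l) := by
      rw [← hx'r j, ← hj, hσ'r, hx'r]
      exact hσx l
    rw [hj, hx h3]
  have hevσ : ∀ (f : W[X]) (l : Fin (d * (8 * b))), f.map (σ' : W →+* W) = f →
      σ' (f.eval (x' l)) = f.eval (x' (π l)) := by
    intro f l hf
    have h2 := evr (σ' : W →+* W) f (x' l)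
    rw [hf] at h2
    rw [← hσx' l]
    exact h2.symm
  have hlcfix : σ' (τ f0.leadingCoeff) = τ f0.leadingCoeff := by
    rw [hσ'τ]
    congr 1
    exact (by rw [hf0]; exact hfixK D₀ _)
  refine fin_comp h hW d (8 * b) b D₁.natDegree hDD.pos rfl x' ?_
    (fun l => (D ^ 8).eval (x' l)) (fun l => (UW d a (D ^ 8) G (τ s)).eval (x' l))
    (fun l => ev2 (derivative (XI d a)) (x' l) (η l)) (fun l => Q.eval (x' l))
    (fun l => D.eval (x' l)) (τ s) P.leadingCoeff ((τ f0.leadingCoeff) ^ 4)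
    (fun l => eval_pow _) (fun l => (heta l).2) (fun l => ?_) hPl0 ?_
    (∏ i, D₁.eval (a₀ i)) t (resultant G₁ D₁ b D₁.natDegree) t' ht ?_ σ' π hσx'
    (fun l => hevσ D l hDfix) hsfix ?_ ?_ ?_
  · intro l j hlj
    apply hx
    rw [← hx'r, ← hx'r]
    exact hlj
  · rw [← eval_der_prod, ← hPx', hQ, eval_add, eval_mul, eval_mul, eval_ofNat]
  · rw [map_pow, hW.sec]
    exact pow_ne_zero _ hlc
  · rw [← ht', hGl]
    ring
  · rw [hPl, hGl, map_pow, map_pow, hlcfix]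
  · rw [map_pow, hlcfix]
  · have h1 : (σ' : W →+* W) (resultant G₁ D₁ b D₁.natDegree) =
        resultant G₁ D₁ b D₁.natDegree := by
      rw [← resultant_map_map, hG₁fix, hD₁fix]
    exact h1

end Pool.Agent.XE31.C2
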