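import Mathlib
import Pool.Agent.XE31.C2.Par3
import Pool.Agent.H69B.C2.Eig
import Pool.Agent.H69B.C2.Root
import Pool.Agent.H69B.C2.Zer
import Pool.Agent.H72C2.Nons
import Pool.Agent.H72C2.Syle
import Pool.Agent.Seat74.C2.Der
import Pool.Agent.Seat74.C2.Eta
import Pool.Agent.Seat74.C2.Nonz
import Pool.Agent.Seat74.C2.Res
import Pool.Agent.Seat74.C2.Sgnv
import Pool.Agent.Seat74.C2.Sq
import Pool.Agent.Seat74.C2.Sylc
import Pool.Agent.Seat74.C2.Wit

/-!
Project C2: the parity theorem.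
-/

set_option autoImplicit false

namespace Pool.Agent.XE31.C2

theorem pcs : Pcs where
  wit := t_wit
  root := Pool.Agent.H69B.C2.t_root
  sgnv := t_sgnv
  sq := t_sq
  der := t_der
  eta := t_eta
  res := t_res8
  eig := Pool.Agent.H69B.C2.t_eig
  nons := Pool.Agent.H72C2.t_nons
  nonz := t_nonz
  syle := Pool.Agent.H72C2.t_syle
  sylc := t_sylc
  zer := Pool.Agent.H69B.C2.t_zer

theorem t_par2 : St_par2 := par2_of pcs

end Pool.Agent.XE31.C2
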