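import Mathlib
import Pool.Agent.XE31.C2.Sml

/-!
Project C2, second construction: Vandermonde determinants, the derivative, the final computation.
-/

set_option autoImplicit false

namespace Pool.Agent.XE31.C2

open Polynomial Finset

theorem sum_card (n : ℕ) : ∑ l : Fin n, (Ioi l).card = n * (n - 1) / 2 := by
  rw [← Finset.sum_range_id, ← Finset.sum_range_reflect,
    ← Fin.sum_univ_eq_sum_range (fun i => n - 1 - i) n]
  refine sum_congr rfl fun l _ => ?_
  rw [Fin.card_Ioi]

theorem vand_sq {N : Type} [CommRing N] (n : ℕ) (x : Fin n → N) :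
    ∏ l, ∏ j ∈ univ.erase l, (x l - x j) =
      (-1) ^ (n * (n - 1) / 2) * (Matrix.vandermonde x).det ^ 2 := by
  have h1 : ∀ l : Fin n, ∏ j ∈ univ.erase l, (x l - x j) =
      (∏ j ∈ Ioi l, (x l - x j)) * ∏ j ∈ Iio l, (x l - x j) := by
    intro l
    rw [← prod_union]
    · refine prod_congr ?_ fun _ _ => rfl
      ext j
      simp only [mem_erase, mem_univ, and_true, mem_union, mem_Ioi, mem_Iio]
      constructor
      · intro h
        rcases lt_or_gt_of_ne h with h | h
        · exact Or.inr h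
        · exact Or.inl h
      · rintro (h | h)
        · exact h.ne'
        · exact h.ne
    · rw [disjoint_left]
      intro j hj hj'
      rw [mem_Ioi] at hj
      rw [mem_Iio] at hj'
      exact absurd hj hj'.not_gt
  rw [prod_congr rfl fun l _ => h1 l, prod_mul_distrib]
  have h2 : ∏ l : Fin n, ∏ j ∈ Iio l, (x l - x j) =
      ∏ j : Fin n, ∏ l ∈ Ioi j, (x l - x j) := by
    apply prod_comm'
    intro a b
    simp
  have h3 : ∏ l : Fin n, ∏ j ∈ Ioi l, (x l - x j) =
      (-1) ^ (n * (n - 1) / 2) * ∏ l : Fin n, ∏ j ∈ Ioi l, (x j - x l) := by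
    have h4 : ∀ l : Fin n, ∏ j ∈ Ioi l, (x l - x j) =
        (-1) ^ (Ioi l).card * ∏ j ∈ Ioi l, (x j - x l) := by
      intro l
      rw [← prod_const, ← prod_mul_distrib]
      refine prod_congr rfl fun j _ => ?_
      ring
    rw [prod_congr rfl fun l _ => h4 l, prod_mul_distrib, prod_pow_eq_pow_sum, sum_card]
  rw [h2, h3, Matrix.det_vandermonde, sq, mul_assoc]

/-- A homomorphism and the Vandermonde determinant. -/
theorem vand_map {R : Type} [CommRing R] (n : ℕ) (x y : Fin n → R) (σ : R ≃+* R)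
    (π : Equiv.Perm (Fin n)) (h : ∀ l, σ (x l) = y (π l)) :
    σ (Matrix.vandermonde x).det = ((Equiv.Perm.sign π : ℤˣ) : ℤ) • (Matrix.vandermonde y).det := by
  have h1 : σ (Matrix.vandermonde x).det = (σ : R →+* R) (Matrix.vandermonde x).det := rfl
  rw [h1, RingHom.map_det, zsmul_eq_mul, ← Matrix.det_permute]
  congr 1
  ext i j
  simp [Matrix.vandermonde_apply, h]

theorem der3 {R : Type} [CommRing R] (d : ℕ) (a : ℕ → R[X]) (A D G G₂ : R[X]) (s : R)
    (hG : derivative G = A ^ 8 + 8 * G₂) :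
    ∃ Q : R[X], derivative (PW d a (D ^ 8) G s) = A ^ 8 * UW d a (D ^ 8) G s + 8 * Q := by
  have h : ∀ k, ∃ Q : R[X], derivative (a k ^ 8 * G ^ k * (C s * D ^ 8) ^ (d - k)) =
      A ^ 8 * ((k : R[X]) * a k ^ 8 * G ^ (k - 1) * (C s * D ^ 8) ^ (d - k)) + 8 * Q := by
    intro k
    refine ⟨a k ^ 7 * derivative (a k) * G ^ k * (C s * D ^ 8) ^ (d - k) +
      a k ^ 8 * ((k : R[X]) * G ^ (k - 1) * G₂) * (C s * D ^ 8) ^ (d - k) +
      a k ^ 8 * G ^ k * (((d - k : ℕ) : R[X]) * (C s * D ^ 8) ^ (d - k - 1) *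
        (C s * (D ^ 7 * derivative D))), ?_⟩
    rw [derivative_mul, derivative_mul, derivative_pow, derivative_pow, derivative_pow,
      derivative_C_mul, derivative_pow, hG]
    simp only [map_natCast, map_ofNat, Nat.cast_ofNat]
    ring
  choose Q hQ using h
  refine ⟨∑ k ∈ Finset.range (d + 1), Q k, ?_⟩
  rw [PW, UW, derivative_sum, Finset.mul_sum, Finset.mul_sum, ← Finset.sum_add_distrib]
  exact Finset.sum_congr rfl fun k _ => hQ k

/-- The polynomial `G` over `W` of the second construction. -/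
noncomputable def G3W {R : Type} [CommRing R] (D : R[X]) (B : ℕ) {m : ℕ} (ν : Fin m → R) :
    R[X] :=
  X ^ (8 * B + 1) * D ^ 8 + 1 + D ^ 8 * ∑ i : Fin m, C (ν i) * X ^ (8 * (i : ℕ))

theorem G3W_map {R S : Type} [CommRing R] [CommRing S] (φ : R →+* S) (D : R[X]) (B : ℕ) {m : ℕ}
    (ν : Fin m → R) : (G3W D B ν).map φ = G3W (D.map φ) B (fun i => φ (ν i)) := by
  unfold G3W
  simp only [Polynomial.map_add, Polynomial.map_mul, Polynomial.map_pow, Polynomial.map_sum,
    Polynomial.map_X, Polynomial.map_C, Polynomial.map_one]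

theorem der_G3W {R : Type} [CommRing R] (D : R[X]) (B : ℕ) {m : ℕ} (ν : Fin m → R) :
    ∃ Q, derivative (G3W D B ν) = (X ^ B * D) ^ 8 + 8 * Q := by
  have h1 : ∀ f : R[X], derivative (f ^ 8) = 8 * (f ^ 7 * derivative f) := by
    intro f
    rw [derivative_pow]
    push_cast
    ring_nf
    rw [show (C (8 : R) : R[X]) = 8 from map_ofNat C 8]
    ring
  have h2 : ∀ i : Fin m, ∃ q, derivative (C (ν i) * X ^ (8 * (i : ℕ)) : R[X]) = 8 * q := by
    intro i
    refine ⟨C (ν i) * ((X ^ (i : ℕ)) ^ 7 * derivative (X ^ (i : ℕ))), ?_⟩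
    rw [derivative_C_mul, mul_comm 8 (i : ℕ), pow_mul, h1]
    ring
  choose q hq using h2
  have h3 : (X ^ (8 * B + 1) : R[X]) = (X ^ B) ^ 8 * X := by
    rw [pow_succ, mul_comm 8 B, pow_mul]
  refine ⟨(X ^ B) ^ 7 * derivative (X ^ B) * X * D ^ 8 + (X ^ B) ^ 8 * X * (D ^ 7 * derivative D) +
    D ^ 7 * derivative D * (∑ i : Fin m, C (ν i) * X ^ (8 * (i : ℕ))) + D ^ 8 * ∑ i, q i, ?_⟩
  unfold G3W
  rw [h3, derivative_add, derivative_add, derivative_one, derivative_mul, derivative_mul,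
    derivative_mul, h1, h1, derivative_X, derivative_sum,
    Finset.sum_congr rfl fun i _ => hq i, ← Finset.mul_sum]
  ring

end Pool.Agent.XE31.C2
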