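import Mathlib
import Pool.Agent.XE31.C2.Par2
import Pool.Agent.XE31.C2.Vnd

/-!
Project C2, second construction (characters): statement of the parity theorem and the final
computation.
-/

set_option autoImplicit false
set_option linter.unusedSectionVars false

namespace Pool.Agent.XE31.C2

open Polynomial Pool.Agent.Y140.AW

section defs

variable {K N : Type} [Field K] [Field N] [Algebra K N]

/-- The polynomial `G` of the second construction. -/
noncomputable def G3 (D : K[X]) (B : ℕ) {m : ℕ} (ν : Fin m → N) : N[X] :=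
  G3W (D.map (algebraMap K N)) B ν

/-- The points of the second construction. -/
def IsPt3 (Θ : K[X][X]) (D : K[X]) (B : ℕ) {m : ℕ} (ν : Fin m → N) (s a b : N) : Prop :=
  (tA Θ a).eval b = 0 ∧ aeval a D ≠ 0 ∧ (G3 D B ν).eval a = s * (aeval a D * b) ^ 8

end defs

/-- The degree of `G` in the second construction. -/
noncomputable def g3 {K : Type} [Field K] (D₀ : K[X]) (B : ℕ) : ℕ :=
  8 * (B + (D₀ ^ 4 * X).natDegree) + 1

/-- PARITY in characteristic 2, second construction: the sign of the permutation of the points is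
the sign of the permutations of the roots of `Θ` over the points `a i` over `s = 0`. -/
def St_par3 : Prop :=
  ∀ (K N : Type) [Field K] [CharP K 2] [Field N] [IsAlgClosed N] [Algebra K N] (Θ : K[X][X])
    (D₀ : K[X]) (d m : ℕ), DD Θ D₀ d → ∀ (ν : Fin m → N) (s : N), s ≠ 0 →
    ∃ B₀ : ℕ, ∀ B ≥ B₀, ∀ x θ : Fin (d * g3 D₀ B) → N,
      Function.Injective x → (∀ l, IsPt3 Θ (D₀ ^ 4 * X) B ν s (x l) (θ l)) →
      ∀ (a : Fin (g3 D₀ B) → N) (b : Fin (g3 D₀ B) → Fin d → N), Function.Injective a →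
      (∀ i, Function.Injective (b i)) → (∀ i, (G3 (D₀ ^ 4 * X) B ν).eval (a i) = 0) →
      (∀ i j, (tA Θ (a i)).eval (b i j) = 0) →
      ∀ σ : N ≃ₐ[K] N, σ s = s → (∀ i, σ (ν i) = ν i) →
      ∀ π : Equiv.Perm (Fin (d * g3 D₀ B)), (∀ l, σ (x l) = x (π l)) →
      ∀ (τ : Equiv.Perm (Fin (g3 D₀ B))) (ω : Fin (g3 D₀ B) → Equiv.Perm (Fin d)) (u : ℤˣ),
        (∀ i, σ (a i) = a (τ i)) → (∀ i j, σ (b i j) = b (τ i) (ω i j)) →
        (∀ i, Equiv.Perm.sign (ω i) = u) → Equiv.Perm.sign π = u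

theorem sq2 (hSQ : St_sq) {N W : Type} [Field N] [CharP N 2] [CommRing W] {r : W →+* N}
    {τ : N → W} (hW : WD N W r τ) (σ : W ≃+* W) (v c w : W) (u u' : ℤˣ)
    (h : v ^ 2 = c ^ 2 + 8 * w) (hv : r v ≠ 0) (hc : σ c = ((u' : ℤˣ) : ℤ) • c)
    (hσv : σ v = ((u : ℤˣ) : ℤ) • v) : u = u' := by
  rcases Int.units_eq_one_or u' with rfl | rfl
  · exact hSQ N W r τ hW σ v c w u h hv (by rw [hc]; simp) hσv
  · rcases Int.units_eq_one_or u with rfl | rfl
    · exfalso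
      have h2 : (2 : N) = 0 := by
        have := CharP.cast_eq_zero N 2
        exact_mod_cast this
      have h8 : (8 : N) = 0 := by
        rw [show (8 : N) = 2 * 4 by norm_num, h2, zero_mul]
      have hrc : r c ≠ 0 := by
        intro h0
        have h1 := congrArg r h
        rw [map_add, map_mul, map_pow, map_pow, h0, map_ofNat, h8] at h1
        simp only [ne_eq, OfNat.ofNat_ne_zero, not_false_eq_true, zero_pow, zero_mul,
          add_zero] at h1
        exact hv (pow_eq_zero_iff two_ne_zero |>.1 h1)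
      have h3 := hSQ N W r τ hW σ c v (-w) (-1) (by rw [h]; ring) hrc (by rw [hσv]; simp) hc
      exact absurd h3 (by decide)
    · rfl

/-- The final computation in `W`, second construction. -/
theorem fin_comp3 (hSQ : St_sq) {N W : Type} [Field N] [CharP N 2] [CommRing W] {r : W →+* N}
    {τ : N → W} (hW : WD N W r τ) (d g b : ℕ) (hd : 0 < d) (hg : g = 8 * b + 1)
    (x' : Fin (d * g) → W) (hx' : Function.Injective (fun l => r (x' l)))
    (E U M Q Y Dl : Fin (d * g) → W) (s κ : W) (hE : ∀ l, E l = Dl l ^ 8)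
    (hU : ∀ l, U l = (s * E l) ^ (d - 1) * M l)
    (hder : ∀ l, κ ^ 2 * ∏ j ∈ Finset.univ.erase l, (x' l - x' j) =
      (Y l) ^ 8 * E l * U l + 8 * Q l)
    (hκ : r κ ≠ 0) (bb : Fin g → Fin d → W) (t : W)
    (hM : ∏ i, ∏ j, ∏ k ∈ Finset.univ.erase j, (bb i j - bb i k) = ∏ l, M l + 8 * t)
    (σ : W ≃+* W) (π : Equiv.Perm (Fin (d * g))) (hσx : ∀ l, σ (x' l) = x' (π l))
    (hσD : ∀ l, σ (Dl l) = Dl (π l)) (hσY : ∀ l, σ (Y l) = Y (π l)) (hσs : σ s = s)
    (hσκ : σ κ = κ) (τ' : Equiv.Perm (Fin g)) (ω : Fin g → Equiv.Perm (Fin d)) (u : ℤˣ)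
    (hσb : ∀ i j, σ (bb i j) = bb (τ' i) (ω i j)) (hu : ∀ i, Equiv.Perm.sign (ω i) = u) :
    Equiv.Perm.sign π = u := by
  classical
  have hdom := hW.dom
  obtain ⟨e₀, he₀⟩ : ∃ e₀, d * (d - 1) = 2 * e₀ := by
    obtain ⟨e, he⟩ := Nat.even_mul_pred_self d
    exact ⟨e, by rw [he]; ring⟩
  have hd2 : d * (d - 1) / 2 = e₀ := by omega
  -- the Vandermonde determinants
  obtain ⟨V, hV⟩ : ∃ V, V = (Matrix.vandermonde x').det := ⟨_, rfl⟩
  have hVσ : σ V = ((Equiv.Perm.sign π : ℤˣ) : ℤ) • V := by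
    rw [hV]
    exact vand_map _ x' x' σ π hσx
  obtain ⟨w, hw⟩ : ∃ w, w = ∏ i, (Matrix.vandermonde (bb i)).det := ⟨_, rfl⟩
  have hgo : ((u : ℤˣ) : ℤ) ^ g = ((u : ℤˣ) : ℤ) := by
    have h1 : Odd g := ⟨4 * b, by rw [hg]; ring⟩
    rcases Int.units_eq_one_or u with rfl | rfl
    · simp
    · simpa using h1.neg_one_pow
  have hwσ : σ w = ((u : ℤˣ) : ℤ) • w := by
    rw [hw, map_prod]
    have h1 : ∀ i, σ (Matrix.vandermonde (bb i)).det =
        (((u : ℤˣ) : ℤ) : W) * (Matrix.vandermonde (bb (τ' i))).det := by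
      intro i
      rw [vand_map _ (bb i) (bb (τ' i)) σ (ω i) (hσb i), hu, zsmul_eq_mul]
    rw [Finset.prod_congr rfl fun i _ => h1 i, Finset.prod_mul_distrib, Finset.prod_const,
      Finset.card_univ, Fintype.card_fin, zsmul_eq_mul, ← Int.cast_pow, hgo]
    congr 1
    exact Equiv.prod_comp τ' (fun i => (Matrix.vandermonde (bb i)).det)
  have hM₀ : ∏ i, ∏ j, ∏ k ∈ Finset.univ.erase j, (bb i j - bb i k) =
      (-1) ^ (e₀ * g) * w ^ 2 := by
    have h1 : ∀ i, ∏ j, ∏ k ∈ Finset.univ.erase j, (bb i j - bb i k) =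
        (-1) ^ e₀ * (Matrix.vandermonde (bb i)).det ^ 2 := by
      intro i
      rw [vand_sq, hd2]
    rw [Finset.prod_congr rfl fun i _ => h1 i, Finset.prod_mul_distrib, Finset.prod_const,
      Finset.card_univ, Fintype.card_fin, ← pow_mul, Finset.prod_pow, hw]
  -- the sign of `n`
  have hN : d * g * (d * g - 1) / 2 = e₀ * g + 2 * (2 * b * d * d * g) := by
    obtain ⟨d', rfl⟩ : ∃ d', d = d' + 1 := ⟨d - 1, by omega⟩
    rw [Nat.add_sub_cancel] at he₀
    have h1 : (d' + 1) * g - 1 = d' + 8 * b * (d' + 1) := by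
      rw [hg]
      have : (d' + 1) * (8 * b + 1) = d' + 8 * b * (d' + 1) + 1 := by ring
      omega
    have h2 : (d' + 1) * g * ((d' + 1) * g - 1) =
        2 * (e₀ * g + 2 * (2 * b * (d' + 1) * (d' + 1) * g)) := by
      rw [h1]
      have h3 : (d' + 1) * g * (d' + 8 * b * (d' + 1)) =
          (d' + 1) * d' * g + 8 * b * (d' + 1) * (d' + 1) * g := by ring
      rw [h3, he₀]
      ring
    rw [h2]
    omega
  have hsgn : ((-1 : W)) ^ (d * g * (d * g - 1) / 2) = (-1) ^ (e₀ * g) := by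
    rw [hN, pow_add, pow_mul (-1 : W) 2]
    norm_num
  have hsgn2 : ((-1 : W)) ^ (e₀ * g) * (-1) ^ (e₀ * g) = 1 := by
    rw [← mul_pow]
    norm_num
  have h1 : (κ ^ 2) ^ (d * g) * ((-1) ^ (e₀ * g) * V ^ 2) =
      ∏ l, ((Y l) ^ 8 * E l * U l + 8 * Q l) := by
    rw [← hsgn, hV, ← vand_sq, ← Finset.prod_congr rfl fun l _ => hder l,
      Finset.prod_mul_distrib, Finset.prod_const, Finset.card_univ, Fintype.card_fin]
  obtain ⟨q, hq⟩ := prod_add_eight Finset.univ (fun l => (Y l) ^ 8 * E l * U l) Q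
  have h2 : ∏ l, ((Y l) ^ 8 * E l * U l) =
      (∏ l, Y l) ^ 8 * (∏ l, Dl l) ^ (8 * d) * s ^ (2 * (e₀ * g)) * ∏ l, M l := by
    have h3 : ∀ l, (Y l) ^ 8 * E l * U l = (Y l) ^ 8 * Dl l ^ (8 * d) * s ^ (d - 1) * M l := by
      intro l
      rw [hU, hE]
      obtain ⟨e, rfl⟩ : ∃ e, d = e + 1 := ⟨d - 1, by omega⟩
      rw [Nat.add_sub_cancel]
      ring
    have h4 : (d - 1) * (d * g) = 2 * (e₀ * g) := by
      calc (d - 1) * (d * g) = d * (d - 1) * g := by ring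
        _ = 2 * (e₀ * g) := by rw [he₀]; ring
    rw [Finset.prod_congr rfl fun l _ => h3 l, Finset.prod_mul_distrib,
      Finset.prod_mul_distrib, Finset.prod_mul_distrib, Finset.prod_pow, Finset.prod_pow,
      Finset.prod_const, Finset.card_univ, Fintype.card_fin, ← pow_mul, h4]
  obtain ⟨v, hv⟩ : ∃ v, v = κ ^ (d * g) * V := ⟨_, rfl⟩
  obtain ⟨c, hc⟩ : ∃ c, c = (∏ l, Y l) ^ 4 * (∏ l, Dl l) ^ (4 * d) * s ^ (e₀ * g) * w :=
    ⟨_, rfl⟩
  obtain ⟨A, hA⟩ : ∃ A, A = (∏ l, Y l) ^ 8 * (∏ l, Dl l) ^ (8 * d) * s ^ (2 * (e₀ * g)) :=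
    ⟨_, rfl⟩
  have h4 : v ^ 2 = c ^ 2 + 8 * ((-1) ^ (e₀ * g) * (q - A * t)) := by
    have e1 : v ^ 2 = (-1) ^ (e₀ * g) * ((κ ^ 2) ^ (d * g) * ((-1) ^ (e₀ * g) * V ^ 2)) := by
      rw [hv]
      linear_combination (-(κ ^ (d * g) * V) ^ 2) * hsgn2
    have e2 : c ^ 2 = A * w ^ 2 := by
      rw [hc, hA]
      ring
    have e3 : ∏ l, M l = (-1) ^ (e₀ * g) * w ^ 2 - 8 * t := by rw [← hM₀, hM]; ring
    rw [e1, h1, hq, h2, e3, ← hA, e2]
    linear_combination (A * w ^ 2) * hsgn2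
  have hrV : r V ≠ 0 := by
    rw [hV]
    have h5 : r (Matrix.vandermonde x').det = (Matrix.vandermonde (fun l => r (x' l))).det := by
      rw [RingHom.map_det]
      congr 1
      ext i j
      simp [Matrix.vandermonde_apply]
    rw [h5]
    exact Matrix.det_vandermonde_ne_zero_iff.2 hx'
  have hrv : r v ≠ 0 := by
    rw [hv, map_mul, map_pow]
    exact mul_ne_zero (pow_ne_zero _ hκ) hrV
  have hσc' : σ c = ((u : ℤˣ) : ℤ) • c := by
    have h8 : σ (∏ l, Dl l) = ∏ l, Dl l := by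
      rw [map_prod, Finset.prod_congr rfl fun l _ => hσD l]
      exact Equiv.prod_comp π Dl
    have h9 : σ (∏ l, Y l) = ∏ l, Y l := by
      rw [map_prod, Finset.prod_congr rfl fun l _ => hσY l]
      exact Equiv.prod_comp π Y
    rw [hc, map_mul, map_mul, map_mul, map_pow, map_pow, map_pow, h8, h9, hσs, hwσ,
      mul_smul_comm]
  refine sq2 hSQ hW σ v c _ (Equiv.Perm.sign π) u h4 hrv hσc' ?_
  rw [hv, map_mul, map_pow, hσκ, hVσ, mul_smul_comm]

end Pool.Agent.XE31.C2
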