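import Mathlib
import Pool.Agent.XE31.C2.Fin
import Pool.Agent.XE31.C2.Par5

/-!
Project C2: the parity theorem for the second construction.
-/

set_option autoImplicit false

namespace Pool.Agent.XE31.C2

theorem t_par3' : St_par3 := par3_of pcs

end Pool.Agent.XE31.C2
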