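import Mathlib
import Pool.Agent.Y140.AW.Bas
import Pool.Agent.XE31.C2.Par4

/-!
Project C2, second construction (characters): the points.
-/

set_option autoImplicit false
set_option linter.unusedSectionVars false

namespace Pool.Agent.XE31.C2

open Polynomial Pool.Agent.Y140.AW

theorem sum_pow8 {N : Type} [CommRing N] [CharP N 2] {ι : Type} (s : Finset ι) (f : ι → N) :
    (∑ i ∈ s, f i) ^ 8 = ∑ i ∈ s, f i ^ 8 := by
  have h := map_sum (iterateFrobenius N 2 3) f s
  simp only [iterateFrobenius_def] at h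
  exact h

theorem pow8_inj {N : Type} [Field N] [CharP N 2] {a b : N} (h : a ^ 8 = b ^ 8) : a = b := by
  have h1 := (iterateFrobenius N 2 3).injective
  apply h1
  simp only [iterateFrobenius_def]
  exact h

theorem nat_pow8 {N : Type} [CommRing N] [CharP N 2] (k : ℕ) : (k : N) ^ 8 = (k : N) := by
  have h := map_natCast (iterateFrobenius N 2 3) k
  simp only [iterateFrobenius_def] at h
  exact h

section bas

variable {K N N' : Type} [Field K] [Field N] [Algebra K N] [Field N'] [Algebra K N']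

theorem G3_map (D : K[X]) (B : ℕ) {m : ℕ} (ν : Fin m → N) (σ : N →ₐ[K] N') :
    G3 D B (fun i => σ (ν i)) = (G3 D B ν).map (σ : N →+* N') := by
  have hD : (D.map (algebraMap K N)).map (σ : N →+* N') = D.map (algebraMap K N') := by
    rw [Polynomial.map_map]
    congr 1
    ext r
    exact σ.commutes r
  unfold G3
  rw [G3W_map, hD]
  rfl

theorem IsPt3.map {Θ : K[X][X]} {D : K[X]} {B m : ℕ} {ν : Fin m → N} {s a b : N}
    (h : IsPt3 Θ D B ν s a b) (σ : N →ₐ[K] N') :
    IsPt3 Θ D B (fun i => σ (ν i)) (σ s) (σ a) (σ b) := by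
  refine ⟨?_, ?_, ?_⟩
  · rw [tA_map]
    have : ((tA Θ a).map (σ : N →+* N')).eval (σ b) = σ ((tA Θ a).eval b) := by
      rw [eval_map]
      exact eval₂_at_apply (σ : N →+* N') b
    rw [this, h.1, map_zero]
  · rw [aeval_algHom_apply]
    exact (map_ne_zero_iff _ (σ : N →+* N').injective).2 h.2.1
  · rw [G3_map]
    have : ((G3 D B ν).map (σ : N →+* N')).eval (σ a) = σ ((G3 D B ν).eval a) := by
      rw [eval_map]
      exact eval₂_at_apply (σ : N →+* N') a
    rw [this, h.2.2, aeval_algHom_apply, map_mul, map_pow, map_mul]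

theorem G3_eval (D : K[X]) (B : ℕ) {m : ℕ} (ν : Fin m → N) (a : N) :
    (G3 D B ν).eval a = a ^ (8 * B + 1) * (aeval a D) ^ 8 + 1 +
      (aeval a D) ^ 8 * ∑ i : Fin m, ν i * (a ^ 8) ^ (i : ℕ) := by
  unfold G3 G3W
  simp only [eval_add, eval_mul, eval_pow, eval_X, eval_C, eval_one, eval_finset_sum,
    eval_map_algebraMap, pow_mul]

/-- The parameters are determined by `m` points. -/
theorem lin3 [CharP N 2] {Θ : K[X][X]} {D : K[X]} {B m : ℕ}
    {ν ν' : Fin m → N} {s : N} (x θ : Fin m → N) (hx : Function.Injective x)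
    (h : ∀ j, IsPt3 Θ D B ν s (x j) (θ j)) (h' : ∀ j, IsPt3 Θ D B ν' s (x j) (θ j)) :
    ν = ν' := by
  have hinj : Function.Injective (fun j => x j ^ 8) := by
    intro i j hij
    exact hx (pow8_inj hij)
  have h1 : (fun i => ν i - ν' i) = 0 := by
    refine Matrix.eq_zero_of_forall_index_sum_pow_mul_eq_zero hinj fun j => ?_
    have h2 := (h j).2.2
    have h3 := (h' j).2.2
    rw [← h3, G3_eval, G3_eval] at h2
    have h4 := mul_left_cancel₀ (pow_ne_zero 8 (h j).2.1) (add_left_cancel h2)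
    have h5 : ∑ i : Fin m, (x j ^ 8) ^ (i : ℕ) * (ν i - ν' i) =
        ∑ i : Fin m, ν i * (x j ^ 8) ^ (i : ℕ) - ∑ i : Fin m, ν' i * (x j ^ 8) ^ (i : ℕ) := by
      rw [← Finset.sum_sub_distrib]
      exact Finset.sum_congr rfl fun i _ => by ring
    rw [h5, h4, sub_self]
  funext i
  exact sub_eq_zero.1 (congrFun h1 i)

end bas

section deg

variable {K N : Type} [Field K] [Field N] [Algebra K N]

/-- the degree of `G3` -/
theorem G3_deg {D : K[X]} (hD : D ≠ 0) {B m : ℕ} (hm : m ≤ B) (ν : Fin m → N) :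
    (G3 D B ν).natDegree = 8 * (B + D.natDegree) + 1 ∧
      (G3 D B ν).coeff (8 * (B + D.natDegree) + 1) = (algebraMap K N D.leadingCoeff) ^ 8 := by
  obtain ⟨E, hE⟩ : ∃ E : N[X], E = D.map (algebraMap K N) := ⟨_, rfl⟩
  have hE0 : E ≠ 0 := by
    rw [hE]
    exact (Polynomial.map_ne_zero_iff (algebraMap K N).injective).2 hD
  have hEd : E.natDegree = D.natDegree := by rw [hE]; exact natDegree_map (algebraMap K N)
  have hEl : E.leadingCoeff = algebraMap K N D.leadingCoeff := by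
    rw [hE]; exact leadingCoeff_map (algebraMap K N)
  obtain ⟨δ, hδ⟩ : ∃ δ, δ = D.natDegree := ⟨_, rfl⟩
  rw [← hδ] at hEd ⊢
  have hM : (X ^ (8 * B + 1) * E ^ 8).natDegree = 8 * (B + δ) + 1 := by
    rw [natDegree_mul (pow_ne_zero _ X_ne_zero) (pow_ne_zero _ hE0), natDegree_X_pow,
      natDegree_pow, hEd]
    ring
  have hMl : (X ^ (8 * B + 1) * E ^ 8).coeff (8 * (B + δ) + 1) =
      (algebraMap K N D.leadingCoeff) ^ 8 := by
    rw [← hM]
    change (X ^ (8 * B + 1) * E ^ 8).leadingCoeff = _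
    rw [leadingCoeff_mul, leadingCoeff_X_pow, one_mul, leadingCoeff_pow, hEl]
  have hlt2 : (E ^ 8 * ∑ a : Fin m, C (ν a) * X ^ (8 * (a : ℕ))).natDegree < 8 * (B + δ) + 1 := by
    have h1 : (∑ a : Fin m, C (ν a) * X ^ (8 * (a : ℕ))).natDegree ≤ 8 * B := by
      refine natDegree_sum_le_of_forall_le _ _ fun a _ => ?_
      refine (natDegree_C_mul_X_pow_le _ _).trans (Nat.mul_le_mul_left 8 ?_)
      have := a.2
      omega
    have h2 : (E ^ 8 * ∑ a : Fin m, C (ν a) * X ^ (8 * (a : ℕ))).natDegree ≤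
        8 * δ + 8 * B := by
      refine natDegree_mul_le.trans ?_
      rw [natDegree_pow, hEd]
      omega
    omega
  have hG : G3 D B ν = X ^ (8 * B + 1) * E ^ 8 +
      (1 + E ^ 8 * ∑ a : Fin m, C (ν a) * X ^ (8 * (a : ℕ))) := by
    unfold G3 G3W
    rw [← hE]
    ring
  have hlt : (1 + E ^ 8 * ∑ a : Fin m, C (ν a) * X ^ (8 * (a : ℕ))).natDegree <
      8 * (B + δ) + 1 :=
    lt_of_le_of_lt (natDegree_add_le _ _) (max_lt (by rw [natDegree_one]; omega) hlt2)
  constructor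
  · rw [hG, natDegree_add_eq_left_of_natDegree_lt (by rw [hM]; exact hlt), hM]
  · rw [hG, coeff_add, hMl, coeff_eq_zero_of_natDegree_lt hlt, add_zero]

/-- the polynomial whose roots are the first coordinates of the points -/
noncomputable def P3 (Θ : K[X][X]) (D : K[X]) (B d : ℕ) {m : ℕ} (ν : Fin m → N) (s : N) : N[X] :=
  ∑ k ∈ Finset.range (d + 1), ((Θ.coeff k).map (algebraMap K N)) ^ 8 * (G3 D B ν) ^ k *
    (C s * (D.map (algebraMap K N)) ^ 8) ^ (d - k)

theorem P3_deg {Θ : K[X][X]} {D : K[X]} (hD : D ≠ 0) {B d m : ℕ} (hΘ : Θ.Monic)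
    (hd : Θ.natDegree = d) (hm : m ≤ B) (hc : ∀ k, (Θ.coeff k).natDegree < B)
    (ν : Fin m → N) (s : N) :
    (P3 Θ D B d ν s).natDegree = d * (8 * (B + D.natDegree) + 1) ∧
      (P3 Θ D B d ν s).leadingCoeff = (algebraMap K N D.leadingCoeff) ^ (8 * d) := by
  obtain ⟨hg, hgl⟩ := G3_deg hD hm ν
  obtain ⟨g, hgdef⟩ : ∃ g, g = G3 D B ν := ⟨_, rfl⟩
  rw [← hgdef] at hg hgl
  obtain ⟨δ, hδ⟩ : ∃ δ, δ = D.natDegree := ⟨_, rfl⟩
  rw [← hδ] at hg hgl ⊢
  obtain ⟨M, hM⟩ : ∃ M, M = 8 * (B + δ) + 1 := ⟨_, rfl⟩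
  rw [← hM] at hg hgl ⊢
  have hgl' : g.leadingCoeff = (algebraMap K N D.leadingCoeff) ^ 8 := by
    rw [leadingCoeff, hg, hgl]
  have h1 : (g ^ d).natDegree = d * M := by rw [natDegree_pow, hg]
  have h2 : (g ^ d).leadingCoeff = (algebraMap K N D.leadingCoeff) ^ (8 * d) := by
    rw [leadingCoeff_pow, hgl', ← pow_mul]
  have hsplit : P3 Θ D B d ν s = g ^ d + ∑ k ∈ Finset.range d,
      ((Θ.coeff k).map (algebraMap K N)) ^ 8 * g ^ k *
        (C s * (D.map (algebraMap K N)) ^ 8) ^ (d - k) := by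
    unfold P3
    rw [Finset.sum_range_succ, add_comm, Nat.sub_self, pow_zero, mul_one, ← hgdef]
    congr 1
    have : Θ.coeff d = 1 := by
      rw [← hd]
      exact hΘ
    rw [this, Polynomial.map_one, one_pow, one_mul]
  by_cases hd0 : d = 0
  · subst hd0
    rw [hsplit]
    simp
  have hMpos : 0 < M := by omega
  have hlow : (∑ k ∈ Finset.range d, ((Θ.coeff k).map (algebraMap K N)) ^ 8 * g ^ k *
      (C s * (D.map (algebraMap K N)) ^ 8) ^ (d - k)).natDegree < d * M := by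
    have h3 : (∑ k ∈ Finset.range d, ((Θ.coeff k).map (algebraMap K N)) ^ 8 * g ^ k *
        (C s * (D.map (algebraMap K N)) ^ 8) ^ (d - k)).natDegree ≤ d * M - 1 := by
      refine natDegree_sum_le_of_forall_le _ _ fun k hk => ?_
      have hk' := Finset.mem_range.1 hk
      have e1 : (((Θ.coeff k).map (algebraMap K N)) ^ 8).natDegree ≤ 8 * (B - 1) := by
        rw [natDegree_pow]
        refine Nat.mul_le_mul_left 8 ?_
        rw [natDegree_map]
        have := hc k
        omega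
      have e2 : (g ^ k).natDegree = k * M := by rw [natDegree_pow, hg]
      have e3 : ((C s * (D.map (algebraMap K N)) ^ 8) ^ (d - k)).natDegree ≤
          (d - k) * (8 * δ) := by
        rw [natDegree_pow]
        refine Nat.mul_le_mul_left _ ?_
        refine (natDegree_C_mul_le _ _).trans ?_
        rw [natDegree_pow, natDegree_map, hδ]
      have e4 : ((((Θ.coeff k).map (algebraMap K N)) ^ 8 * g ^ k *
          (C s * (D.map (algebraMap K N)) ^ 8) ^ (d - k))).natDegree ≤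
          8 * (B - 1) + k * M + (d - k) * (8 * δ) := by
        refine natDegree_mul_le.trans (Nat.add_le_add ?_ e3)
        refine natDegree_mul_le.trans ?_
        rw [e2]
        omega
      have e5 : d * M = (d - k) * (8 * B + 1) + k * M + (d - k) * (8 * δ) := by
        obtain ⟨c, rfl⟩ : ∃ c, d = k + c := ⟨d - k, by omega⟩
        rw [Nat.add_sub_cancel_left, hM]
        ring
      have e6 : 8 * (B - 1) + 1 ≤ (d - k) * (8 * B + 1) := by
        have e7 : 1 * (8 * B + 1) ≤ (d - k) * (8 * B + 1) := Nat.mul_le_mul_right _ (by omega)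
        omega
      omega
    have h4 : 0 < d * M := Nat.mul_pos (by omega) hMpos
    omega
  have hnd : (P3 Θ D B d ν s).natDegree = d * M := by
    rw [hsplit, natDegree_add_eq_left_of_natDegree_lt (by rw [h1]; exact hlow), h1]
  refine ⟨hnd, ?_⟩
  rw [leadingCoeff, hnd, hsplit, coeff_add, coeff_eq_zero_of_natDegree_lt hlow, add_zero, ← h1]
  exact h2

end deg

section chr

variable {K N : Type} [Field K] [CharP K 2] [Field N] [Algebra K N]

omit [CharP K 2] in
/-- `Θ(a, b)` as a sum -/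
theorem tA_eval3 {Θ : K[X][X]} {d : ℕ} (hd : Θ.natDegree = d) (a b : N) :
    (tA Θ a).eval b = ∑ k ∈ Finset.range (d + 1), aeval a (Θ.coeff k) * b ^ k := by
  have h1 : (tA Θ a).natDegree < d + 1 := by
    have : (tA Θ a).natDegree ≤ Θ.natDegree := natDegree_map_le
    omega
  rw [eval_eq_sum_range' h1]
  refine Finset.sum_congr rfl fun k _ => ?_
  unfold tA
  rw [coeff_map]
  rfl

omit [CharP K 2] in
theorem tZ_eval3 {Θ : K[X][X]} {d : ℕ} (hd : Θ.natDegree = d) (a b : N) :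
    tZ Θ a b = ∑ k ∈ Finset.range (d + 1), aeval a (Θ.coeff k) * k * b ^ (k - 1) := by
  have h1 : (tA Θ a).natDegree < d + 1 := by
    have : (tA Θ a).natDegree ≤ Θ.natDegree := natDegree_map_le
    omega
  unfold tZ
  rw [derivative_eval, sum_over_range' _ _ _ h1]
  · refine Finset.sum_congr rfl fun k _ => ?_
    have h2 : (tA Θ a).coeff k = aeval a (Θ.coeff k) := by
      unfold tA
      rw [coeff_map]
      rfl
    rw [h2]
  · intro n
    simp

omit [CharP K 2] in
theorem P3_eval (Θ : K[X][X]) (D : K[X]) (B d : ℕ) {m : ℕ} (ν : Fin m → N) (s a : N) :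
    (P3 Θ D B d ν s).eval a = ∑ k ∈ Finset.range (d + 1),
      (aeval a (Θ.coeff k)) ^ 8 * ((G3 D B ν).eval a) ^ k * (s * (aeval a D) ^ 8) ^ (d - k) := by
  unfold P3
  rw [eval_finsetSum]
  refine Finset.sum_congr rfl fun k _ => ?_
  simp only [eval_mul, eval_pow, eval_C, eval_map_algebraMap]

/-- the value at a point `a` when `G(a) = s (D(a) b) ^ 8` -/
theorem P3_eval_pt {Θ : K[X][X]} {D : K[X]} {B d m : ℕ} (hd : Θ.natDegree = d) (ν : Fin m → N)
    {s a b : N} (hg : (G3 D B ν).eval a = s * (aeval a D * b) ^ 8) :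
    (P3 Θ D B d ν s).eval a = (s * (aeval a D) ^ 8) ^ d * ((tA Θ a).eval b) ^ 8 := by
  have : CharP N 2 := charP_of_injective_algebraMap (algebraMap K N).injective 2
  rw [P3_eval, tA_eval3 hd, sum_pow8, Finset.mul_sum]
  refine Finset.sum_congr rfl fun k hk => ?_
  have hk' : k ≤ d := by
    have := Finset.mem_range.1 hk
    omega
  rw [hg]
  obtain ⟨c, rfl⟩ : ∃ c, d = k + c := ⟨d - k, by omega⟩
  rw [Nat.add_sub_cancel_left, pow_add]
  have h1 : (s * (aeval a D * b) ^ 8) ^ k = (s * (aeval a D) ^ 8) ^ k * (b ^ k) ^ 8 := by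
    rw [← pow_mul, mul_comm k 8, pow_mul, ← mul_pow]
    ring
  rw [h1]
  ring

theorem der_pow8 [CharP N 2] (f : N[X]) : derivative (f ^ 8) = 0 := by
  rw [derivative_pow]
  have : ((8 : ℕ) : N) = 0 := (CharP.cast_eq_zero_iff N 2 8).2 (by norm_num)
  rw [this, C_0, zero_mul, zero_mul]

theorem G3_der (D : K[X]) (B : ℕ) {m : ℕ} (ν : Fin m → N) :
    derivative (G3 D B ν) = (X ^ B * D.map (algebraMap K N)) ^ 8 := by
  have : CharP N 2 := charP_of_injective_algebraMap (algebraMap K N).injective 2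
  obtain ⟨Q, hQ⟩ := der_G3W (D.map (algebraMap K N)) B ν
  unfold G3
  rw [hQ]
  have h8 : (8 : N[X]) = 0 := by
    have h1 : ((8 : ℕ) : N) = 0 := (CharP.cast_eq_zero_iff N 2 8).2 (by norm_num)
    have h2 : ((8 : ℕ) : N[X]) = C ((8 : ℕ) : N) := by rw [C_eq_natCast]
    rw [h1, C_0] at h2
    exact_mod_cast h2
  rw [h8, zero_mul, add_zero]

theorem P3_der (Θ : K[X][X]) (D : K[X]) (B d : ℕ) {m : ℕ} (ν : Fin m → N) (s : N) :
    derivative (P3 Θ D B d ν s) = ∑ k ∈ Finset.range (d + 1),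
      ((Θ.coeff k).map (algebraMap K N)) ^ 8 *
        ((k : N[X]) * (G3 D B ν) ^ (k - 1) * (X ^ B * D.map (algebraMap K N)) ^ 8) *
        (C s * (D.map (algebraMap K N)) ^ 8) ^ (d - k) := by
  have : CharP N 2 := charP_of_injective_algebraMap (algebraMap K N).injective 2
  unfold P3
  rw [derivative_sum]
  refine Finset.sum_congr rfl fun k _ => ?_
  have h1 : derivative ((C s * (D.map (algebraMap K N)) ^ 8) ^ (d - k)) = 0 := by
    rw [derivative_pow, derivative_C_mul, der_pow8, mul_zero, mul_zero]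
  rw [derivative_mul, derivative_mul, der_pow8, h1, derivative_pow, G3_der]
  simp only [C_eq_natCast, map_natCast]
  ring

theorem P3_der_eval {Θ : K[X][X]} {D : K[X]} {B d m : ℕ} (hd : Θ.natDegree = d) (hd0 : 0 < d)
    (ν : Fin m → N)
    {s a b : N} (hg : (G3 D B ν).eval a = s * (aeval a D * b) ^ 8) :
    (derivative (P3 Θ D B d ν s)).eval a =
      (a ^ B * aeval a D) ^ 8 * (s * (aeval a D) ^ 8) ^ (d - 1) * (tZ Θ a b) ^ 8 := by
  have : CharP N 2 := charP_of_injective_algebraMap (algebraMap K N).injective 2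
  rw [P3_der, tZ_eval3 hd, sum_pow8, Finset.mul_sum, eval_finsetSum]
  refine Finset.sum_congr rfl fun k hk => ?_
  simp only [eval_mul, eval_pow, eval_C, eval_X, eval_map_algebraMap, eval_natCast]
  rw [hg]
  have h0 : (aeval a (Θ.coeff k) * (k : N) * b ^ (k - 1)) ^ 8 =
      (aeval a (Θ.coeff k)) ^ 8 * (k : N) * (b ^ (k - 1)) ^ 8 := by
    rw [mul_pow, mul_pow, nat_pow8]
  rw [h0]
  rcases Nat.eq_zero_or_pos k with rfl | hk0
  · simp
  have hk' : k ≤ d := by
    have := Finset.mem_range.1 hk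
    omega
  obtain ⟨c, rfl⟩ : ∃ c, d = k + c := ⟨d - k, by omega⟩
  obtain ⟨e, rfl⟩ : ∃ e, k = e + 1 := ⟨k - 1, by omega⟩
  have e1 : e + 1 + c - (e + 1) = c := by omega
  have e2 : e + 1 + c - 1 = e + c := by omega
  have e3 : e + 1 - 1 = e := by omega
  rw [e1, e2, e3, pow_add]
  have h1 : (s * (aeval a D * b) ^ 8) ^ e = (s * (aeval a D) ^ 8) ^ e * (b ^ e) ^ 8 := by
    rw [← pow_mul, mul_comm e 8, pow_mul, ← mul_pow]
    ring
  rw [h1]
  ring

end chr

/-- PTS3: the points over `(ν, s)`, second construction. -/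
theorem t_pts3 (h : St_res) (K N : Type) [Field K] [CharP K 2] [Field N] [IsAlgClosed N]
    [Algebra K N] (Θ : K[X][X]) (D₀ : K[X]) (d B m : ℕ) (hDD : DD Θ D₀ d) (hm : m ≤ B)
    (hco : ∀ k, (Θ.coeff k).natDegree < B) (ν : Fin m → N) (s : N) (hs : s ≠ 0) :
    ∃ x θ : Fin (d * g3 D₀ B) → N, Function.Injective x ∧
      (∀ l, IsPt3 Θ (D₀ ^ 4 * X) B ν s (x l) (θ l)) ∧
      (∀ a b, IsPt3 Θ (D₀ ^ 4 * X) B ν s a b → ∃ l, a = x l ∧ b = θ l) := by
  have : CharP N 2 := charP_of_injective_algebraMap (algebraMap K N).injective 2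
  obtain ⟨D, hDdef⟩ : ∃ D : K[X], D = D₀ ^ 4 * X := ⟨_, rfl⟩
  unfold g3
  rw [← hDdef]
  have hD0 : D ≠ 0 := by
    rw [hDdef]
    exact mul_ne_zero (pow_ne_zero _ hDD.ne) X_ne_zero
  have hDa0 : ∀ a : N, aeval a D ≠ 0 → a ≠ 0 ∧ aeval a D₀ ≠ 0 := by
    intro a ha
    rw [hDdef, map_mul, map_pow, aeval_X] at ha
    exact ⟨right_ne_zero_of_mul ha, fun h0 => ha (by rw [h0]; ring)⟩
  obtain ⟨P, hP⟩ : ∃ P, P = P3 Θ D B d ν s := ⟨_, rfl⟩
  obtain ⟨hPd, hPl⟩ := P3_deg (N := N) hD0 hDD.monic hDD.deg hm hco ν s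
  rw [← hP] at hPd hPl
  have hlc : (algebraMap K N D.leadingCoeff) ^ (8 * d) ≠ 0 := by
    refine pow_ne_zero _ fun h0 => ?_
    rw [map_eq_zero] at h0
    exact hD0 (leadingCoeff_eq_zero.1 h0)
  have hP0 : P ≠ 0 := by
    intro h0
    rw [h0, leadingCoeff_zero] at hPl
    exact hlc hPl.symm
  -- points are roots
  have hroot : ∀ a b, IsPt3 Θ D B ν s a b → P.eval a = 0 := by
    rintro a b ⟨h1, -, h3⟩
    rw [hP, P3_eval_pt hDD.deg ν h3, h1, zero_pow (by norm_num), mul_zero]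
  -- roots are points
  have hpt : ∀ a, P.eval a = 0 → ∃ b, IsPt3 Θ D B ν s a b := by
    intro a ha
    have hDa : aeval a D ≠ 0 := by
      intro h0
      have h1 : (G3 D B ν).eval a = 1 := by
        rw [G3_eval, h0]
        ring
      have h2 : P.eval a = 1 := by
        rw [hP, P3_eval, h1, h0, zero_pow (by norm_num), mul_zero, Finset.sum_range_succ,
          Finset.sum_eq_zero, zero_add, Nat.sub_self, pow_zero, mul_one, one_pow, mul_one]
        · have h3 : Θ.coeff d = 1 := by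
            rw [← hDD.deg]
            exact hDD.monic
          rw [h3, map_one, one_pow]
        · intro k hk
          have := Finset.mem_range.1 hk
          rw [zero_pow (by omega), mul_zero]
      rw [h2] at ha
      exact one_ne_zero ha
    obtain ⟨b, hb⟩ := IsAlgClosed.exists_pow_nat_eq
      ((G3 D B ν).eval a / (s * (aeval a D) ^ 8)) (show 0 < 8 by norm_num)
    have hsD : s * (aeval a D) ^ 8 ≠ 0 := mul_ne_zero hs (pow_ne_zero _ hDa)
    have hg : (G3 D B ν).eval a = s * (aeval a D * b) ^ 8 := by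
      rw [mul_pow, hb, ← mul_assoc, mul_div_cancel₀ _ hsD]
    refine ⟨b, ?_, hDa, hg⟩
    rw [hP, P3_eval_pt hDD.deg ν hg] at ha
    exact pow_eq_zero_iff (by norm_num) |>.1
      ((mul_eq_zero.1 ha).resolve_left (pow_ne_zero _ hsD))
  -- the derivative
  have hder : ∀ a b, IsPt3 Θ D B ν s a b → (derivative P).eval a =
      (a ^ B * aeval a D) ^ 8 * (s * (aeval a D) ^ 8) ^ (d - 1) * (tZ Θ a b) ^ 8 := by
    rintro a b ⟨-, -, h3⟩
    rw [hP]
    exact P3_der_eval hDD.deg hDD.pos ν h3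
  have hder0 : ∀ a, P.eval a = 0 → (derivative P).eval a ≠ 0 := by
    intro a ha
    obtain ⟨b, hb⟩ := hpt a ha
    rw [hder a b hb]
    have hDa := hb.2.1
    obtain ⟨ha0, hD₀a⟩ := hDa0 a hDa
    refine mul_ne_zero (mul_ne_zero (pow_ne_zero _ (mul_ne_zero (pow_ne_zero _ ha0) hDa))
      (pow_ne_zero _ (mul_ne_zero hs (pow_ne_zero _ hDa)))) (pow_ne_zero _ ?_)
    obtain ⟨β, -, hβ, hprod⟩ := h K N Θ D₀ d hDD a hD₀a
    obtain ⟨i, hi⟩ := (hβ b).1 hb.1
    rw [hi]
    intro h0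
    rw [← hprod] at hD₀a
    exact hD₀a (Finset.prod_eq_zero (Finset.mem_univ i) h0)
  -- the roots
  classical
  have hnodup : P.roots.Nodup := by
    rw [Multiset.nodup_iff_count_le_one]
    intro a
    rw [count_roots]
    by_contra hcon
    push Not at hcon
    have h1 : P.IsRoot a := by
      by_contra h2
      rw [rootMultiplicity_eq_zero h2] at hcon
      omega
    exact hder0 a h1 ((one_lt_rootMultiplicity_iff_isRoot hP0).1 hcon).2
  have hcard : P.roots.toFinset.card = d * (8 * (B + D.natDegree) + 1) := by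
    rw [Multiset.toFinset_card_of_nodup hnodup, ← hPd]
    exact (IsAlgClosed.splits P).natDegree_eq_card_roots.symm
  obtain ⟨e⟩ : Nonempty (P.roots.toFinset ≃ Fin (d * (8 * (B + D.natDegree) + 1))) :=
    ⟨Finset.equivFinOfCardEq hcard⟩
  obtain ⟨x, hx⟩ : ∃ x : Fin (d * (8 * (B + D.natDegree) + 1)) → N,
    x = fun l => ((e.symm l : P.roots.toFinset) : N) := ⟨_, rfl⟩
  have hxinj : Function.Injective x := by
    intro i j hij
    rw [hx] at hij
    exact e.symm.injective (Subtype.ext hij)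
  have hxroot : ∀ l, P.eval (x l) = 0 := by
    intro l
    have h1 := (e.symm l).2
    rw [Multiset.mem_toFinset, mem_roots hP0] at h1
    rw [hx]
    exact h1
  have hxall : ∀ a, P.eval a = 0 → ∃ l, a = x l := by
    intro a ha
    have h1 : a ∈ P.roots.toFinset := by
      rw [Multiset.mem_toFinset, mem_roots hP0]
      exact ha
    refine ⟨e ⟨a, h1⟩, ?_⟩
    simp only [hx, Equiv.symm_apply_apply]
  choose θ hθ using fun l => hpt (x l) (hxroot l)
  refine ⟨x, θ, hxinj, hθ, ?_⟩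
  intro a b hab
  obtain ⟨l, hl⟩ := hxall a (hroot a b hab)
  refine ⟨l, hl, ?_⟩
  subst hl
  have h1 := hab.2.2
  rw [(hθ l).2.2, mul_pow, mul_pow] at h1
  have h2 := mul_left_cancel₀ hs h1
  have h3 := mul_left_cancel₀ (pow_ne_zero 8 hab.2.1) h2
  exact (pow8_inj h3).symm

/-- The zeros of `G3`. -/
theorem zer3 (K N : Type) [Field K] [CharP K 2] [Field N] [IsAlgClosed N]
    [Algebra K N] (D₀ : K[X]) (hD₀ : D₀ ≠ 0) (B m : ℕ) (hm : m ≤ B) (ν : Fin m → N) :
    ∃ a : Fin (g3 D₀ B) → N, Function.Injective a ∧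
      (∀ i, (G3 (D₀ ^ 4 * X) B ν).eval (a i) = 0) ∧
      (∀ c, (G3 (D₀ ^ 4 * X) B ν).eval c = 0 → ∃ i, c = a i) := by
  have : CharP N 2 := charP_of_injective_algebraMap (algebraMap K N).injective 2
  obtain ⟨D, hDdef⟩ : ∃ D : K[X], D = D₀ ^ 4 * X := ⟨_, rfl⟩
  unfold g3
  rw [← hDdef]
  have hD0 : D ≠ 0 := by
    rw [hDdef]
    exact mul_ne_zero (pow_ne_zero _ hD₀) X_ne_zero
  have hDa0 : ∀ a : N, aeval a D ≠ 0 → a ≠ 0 := by
    intro a ha
    rw [hDdef, map_mul, map_pow, aeval_X] at ha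
    exact right_ne_zero_of_mul ha
  obtain ⟨P, hP⟩ : ∃ P, P = G3 D B ν := ⟨_, rfl⟩
  obtain ⟨hPd, hPl⟩ := G3_deg (N := N) hD0 hm ν
  rw [← hP] at hPd hPl ⊢
  have hP0 : P ≠ 0 := by
    intro h0
    rw [h0, natDegree_zero] at hPd
    omega
  have hder0 : ∀ a, P.eval a = 0 → (derivative P).eval a ≠ 0 := by
    intro a ha
    have hDa : aeval a D ≠ 0 := by
      intro h0
      rw [hP, G3_eval, h0] at ha
      have h1 : (1 : N) = 0 := by
        rw [← ha]
        ring
      exact one_ne_zero h1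
    rw [hP, G3_der]
    simp only [eval_mul, eval_pow, eval_X, eval_map_algebraMap]
    exact pow_ne_zero _ (mul_ne_zero (pow_ne_zero _ (hDa0 a hDa)) hDa)
  classical
  have hnodup : P.roots.Nodup := by
    rw [Multiset.nodup_iff_count_le_one]
    intro a
    rw [count_roots]
    by_contra hcon
    push Not at hcon
    have h1 : P.IsRoot a := by
      by_contra h2
      rw [rootMultiplicity_eq_zero h2] at hcon
      omega
    exact hder0 a h1 ((one_lt_rootMultiplicity_iff_isRoot hP0).1 hcon).2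
  have hcard : P.roots.toFinset.card = 8 * (B + D.natDegree) + 1 := by
    rw [Multiset.toFinset_card_of_nodup hnodup, ← hPd]
    exact (IsAlgClosed.splits P).natDegree_eq_card_roots.symm
  obtain ⟨e⟩ : Nonempty (P.roots.toFinset ≃ Fin (8 * (B + D.natDegree) + 1)) :=
    ⟨Finset.equivFinOfCardEq hcard⟩
  refine ⟨fun l => ((e.symm l : P.roots.toFinset) : N),
    fun i j hij => e.symm.injective (Subtype.ext hij), ?_, ?_⟩
  · intro l
    have h1 := (e.symm l).2
    rw [Multiset.mem_toFinset, mem_roots hP0] at h1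
    exact h1
  · intro a ha
    have h1 : a ∈ P.roots.toFinset := by
      rw [Multiset.mem_toFinset, mem_roots hP0]
      exact ha
    refine ⟨e ⟨a, h1⟩, ?_⟩
    simp only [Equiv.symm_apply_apply]

end Pool.Agent.XE31.C2
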