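import Mathlib
import Pool.Agent.Y686.AW.Indep
import Pool.Agent.XE31.C2.Pts3

/-!
Project C2, second construction (characters): algebraic independence.
-/

set_option autoImplicit false
set_option linter.unusedSectionVars false

namespace Pool.Agent.XE31.C2

open Polynomial Pool.Agent.Y140.AW

theorem indep3 (K K₀ N : Type) [Field K] [CharP K 2] [Field K₀] [Algebra K K₀]
    [Algebra.IsAlgebraic K K₀] [Field N] [IsAlgClosed N] [Algebra K N] [Algebra K₀ N]
    [IsScalarTower K K₀ N] (Θ : K[X][X]) (D₀ D : K[X]) (d B m : ℕ) (hDD : DD Θ D₀ d)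
    (ν : Fin m → N) (s : N)
    (hb : IsTranscendenceBasis K₀ (fun o : Option (Fin m) => o.elim s ν))
    (x θ : Fin m → N) (hx : Function.Injective x) (hpt : ∀ j, IsPt3 Θ D B ν s (x j) (θ j)) :
    AlgebraicIndependent (IntermediateField.adjoin K₀ {s}) x := by
  classical
  have hcN : CharP N 2 := charP_of_injective_algebraMap (algebraMap K N).injective 2
  let y : Fin m ⊕ Unit → N := Sum.elim x fun _ => s
  let F₁ : IntermediateField K₀ N := IntermediateField.adjoin K₀ (Set.range y)
  have hsc : IsScalarTower K F₁ N := IsScalarTower.of_algebraMap_eq fun z => rfl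
  have hxF : ∀ j, x j ∈ F₁ := fun j => IntermediateField.subset_adjoin K₀ _ ⟨Sum.inl j, rfl⟩
  have hsF : s ∈ F₁ := IntermediateField.subset_adjoin K₀ _ ⟨Sum.inr (), rfl⟩
  let L : IntermediateField F₁ N := algebraicClosure F₁ N
  have hL : ∀ z : N, z ∈ L ↔ IsAlgebraic F₁ z := fun z => mem_algebraicClosure_iff
  have hFL : ∀ z ∈ F₁, z ∈ L := fun z hz =>
    (hL z).2 (isAlgebraic_algebraMap (⟨z, hz⟩ : F₁))
  have hxL : ∀ j, x j ∈ L := fun j => hFL _ (hxF j)
  have hsL : s ∈ L := hFL _ hsF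
  -- polynomials in `x j`
  have hpolyL : ∀ (P : K[X]) (j : Fin m), aeval (x j) P ∈ L := by
    intro P j
    refine hFL _ ?_
    have h1 : aeval (x j) P = algebraMap F₁ N (aeval (⟨x j, hxF j⟩ : F₁) P) := by
      rw [← aeval_algebraMap_apply]
      rfl
    rw [h1]
    exact (aeval (⟨x j, hxF j⟩ : F₁) P).2
  have hθL : ∀ j, θ j ∈ L := by
    intro j
    rw [hL]
    have h1 := (hpt j).1
    have hint : IsIntegral F₁ (θ j) := by
      refine ⟨Θ.map (aeval (⟨x j, hxF j⟩ : F₁) : K[X] →ₐ[K] F₁).toRingHom,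
        hDD.monic.map _, ?_⟩
      rw [Polynomial.eval₂_eq_eval_map, Polynomial.map_map]
      have h2 : (algebraMap F₁ N).comp (aeval (⟨x j, hxF j⟩ : F₁) : K[X] →ₐ[K] F₁).toRingHom =
          (Polynomial.aeval (x j) : K[X] →ₐ[K] N).toRingHom := by
        refine RingHom.ext fun P => ?_
        show algebraMap F₁ N (aeval (⟨x j, hxF j⟩ : F₁) P) = aeval (x j) P
        rw [← aeval_algebraMap_apply]
        rfl
      rw [h2]
      exact h1
    exact hint.isAlgebraic
  -- the coefficients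
  have hνL : ∀ a, ν a ∈ L := by
    refine Y686.AW.solve_mem L (fun j => x j ^ 8) ?_ (fun j => pow_mem (hxL j) 8) ν ?_
    · intro i j hij
      exact hx (pow8_inj hij)
    · intro j
      obtain ⟨-, h2, h3⟩ := hpt j
      rw [G3_eval] at h3
      have h5 : ∑ a : Fin m, ν a * (x j ^ 8) ^ (a : ℕ) = (s * (aeval (x j) D * θ j) ^ 8 -
          (x j ^ (8 * B + 1) * (aeval (x j) D) ^ 8 + 1)) /
          (aeval (x j) D) ^ 8 := by
        rw [eq_div_iff (pow_ne_zero 8 h2), ← h3]
        ring
      rw [h5]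
      have hD' := hpolyL D j
      exact div_mem (sub_mem (mul_mem hsL (pow_mem (mul_mem hD' (hθL j)) 8)) (add_mem
        (mul_mem (pow_mem (hxL j) _) (pow_mem hD' 8)) (one_mem _))) (pow_mem hD' 8)
  -- `N` is algebraic over `F₁`
  let M : IntermediateField K₀ N :=
    IntermediateField.adjoin K₀ (Set.range (fun o : Option (Fin m) => o.elim s ν))
  have hMN : Algebra.IsAlgebraic M N := hb.isAlgebraic_field
  have hML : M ≤ L.restrictScalars K₀ := by
    refine IntermediateField.adjoin_le_iff.2 ?_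
    rintro _ ⟨o, rfl⟩
    cases o with
    | none => exact hsL
    | some a => exact hνL a
  have hML' : ∀ z : M, (algebraMap M N) z ∈ L := fun z => hML z.2
  have hN : Algebra.IsAlgebraic F₁ N := by
    let _ : Algebra M L := ((algebraMap M N).codRestrict L hML').toAlgebra
    have : IsScalarTower M L N := IsScalarTower.of_algebraMap_eq fun _ => rfl
    have hLF : Algebra.IsAlgebraic F₁ L := algebraicClosure.isAlgebraic F₁ N
    refine ⟨fun z => ?_⟩
    have h1 : IsAlgebraic M z := hMN.isAlgebraic z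
    have h2 : IsAlgebraic L z := h1.tower_top L
    exact h2.restrictScalars F₁
  have hN' : Algebra.IsAlgebraic (Algebra.adjoin K₀ (Set.range y)) N :=
    IntermediateField.isAlgebraic_adjoin_iff_top.1 hN
  have hcard : Cardinal.mk (Fin m ⊕ Unit) ≤ Algebra.trdeg K₀ N := by
    rw [← hb.cardinalMk_eq_trdeg]
    simp
  have hbas : IsTranscendenceBasis K₀ y :=
    Algebra.IsAlgebraic.isTranscendenceBasis_of_le_trdeg_of_finite K₀ y hcard
  have h1 := (AlgebraicIndependent.sumElim_iff.1 hbas.1).2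
  have h2 := IntermediateField.algebraicIndependent_adjoin_iff.2 h1
  have h3 : Set.range (fun _ : Unit => s) = {s} := Set.range_const
  rw [h3] at h2
  exact h2

/-- The zeros of `G3` are transcendental. -/
theorem zer_trans (K K₀ N : Type) [Field K] [Field K₀] [IsAlgClosed K₀] [Algebra K K₀]
    [Field N] [Algebra K N] [Algebra K₀ N]
    [IsScalarTower K K₀ N] (D : K[X]) (B m : ℕ)
    (ν : Fin (m + 1) → N) (hν : AlgebraicIndependent K₀ ν) (a : N)
    (ha : (G3 D B ν).eval a = 0) : Transcendental K a := by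
  intro halg
  have h1 : IsAlgebraic K₀ a := halg.tower_top K₀
  obtain ⟨a', rfl⟩ : ∃ a' : K₀, algebraMap K₀ N a' = a := by
    have h2 := h1.isIntegral
    have h3 := IsAlgClosed.degree_eq_one_of_irreducible K₀ (minpoly.irreducible h2)
    exact minpoly.mem_range_of_degree_eq_one K₀ a h3
  have hD : aeval (algebraMap K₀ N a') D = algebraMap K₀ N (aeval a' D) :=
    aeval_algebraMap_apply N a' D
  rw [G3_eval, hD] at ha
  obtain ⟨δ, hδ⟩ : ∃ δ, δ = aeval a' D := ⟨_, rfl⟩
  rw [← hδ] at ha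
  have hδ0 : δ ≠ 0 := by
    rintro rfl
    have h4 : (1 : N) = 0 := by
      rw [← ha, map_zero]
      ring
    exact one_ne_zero h4
  obtain ⟨p, hp⟩ : ∃ p : MvPolynomial (Fin (m + 1)) K₀,
      p = MvPolynomial.C (a' ^ (8 * B + 1) * δ ^ 8 + 1) +
        ∑ i : Fin (m + 1), MvPolynomial.C (δ ^ 8 * (a' ^ 8) ^ (i : ℕ)) * MvPolynomial.X i :=
    ⟨_, rfl⟩
  have hp0 : MvPolynomial.aeval ν p = 0 := by
    rw [← ha, hp]
    simp only [map_add, map_sum, map_mul, MvPolynomial.aeval_X, MvPolynomial.aeval_C, map_pow,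
      map_one, Finset.mul_sum]
    congr 1
    exact Finset.sum_congr rfl fun i _ => by ring
  have hp1 : p = 0 := (injective_iff_map_eq_zero _).1 hν p hp0
  have e1 : MvPolynomial.eval (0 : Fin (m + 1) → K₀) p = a' ^ (8 * B + 1) * δ ^ 8 + 1 := by
    rw [hp]
    simp
  have e2 : MvPolynomial.eval (Pi.single 0 1 : Fin (m + 1) → K₀) p =
      a' ^ (8 * B + 1) * δ ^ 8 + 1 + δ ^ 8 := by
    rw [hp]
    simp only [map_add, map_sum, map_mul, MvPolynomial.eval_X, MvPolynomial.eval_C]
    congr 1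
    rw [Finset.sum_eq_single 0]
    · simp
    · intro i _ hi
      rw [Pi.single_eq_of_ne hi, mul_zero]
    · simp
  rw [hp1, map_zero] at e1 e2
  rw [← e1, zero_add] at e2
  exact pow_ne_zero 8 hδ0 e2.symm

end Pool.Agent.XE31.C2
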