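import Mathlib
import Pool.Agent.N70.PP.Fin
import Pool.Agent.H43W.Core
import Pool.Agent.XE31.C2.Fin3
import Pool.Agent.XE31.C2.Ind3

/-!
Project C2, second construction (characters): the main theorem.
-/

set_option autoImplicit false
set_option linter.unusedSectionVars false
set_option linter.unusedSimpArgs false

namespace Pool.Agent.XE31.C2

open Polynomial Pool.Agent.H391R2 Pool.Agent.H391R2.T4 Pool.Agent.Y793 Pool.Agent.Y140.AW
open Pool.Agent.N70.EP (SgnIndex)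
open Pool.Agent.N70.PP

/-- The degrees for all characters in characteristic 2. -/
def Dg2 (c n : ℕ) : Prop := ∃ q : ℕ, q.Prime ∧ n = q + (c + 1) ∧ n % (8 * c) = c

section zero

variable {K L Z N : Type} [Field K] [Infinite K] [Field L] [Algebra K L]
  [FiniteDimensional K L] [IsGalois K L] [Field Z] [Algebra (RatFunc K) Z] [Algebra L Z]
  [Algebra K Z] [IsScalarTower K (RatFunc K) Z] [IsScalarTower K L Z]
  [FiniteDimensional (RatFunc K) Z] [IsGalois (RatFunc K) Z] [Field N]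
  [IsAlgClosed N] [Algebra K N] [Algebra L N] [IsScalarTower K L N]

/-- The signs over the zeros `a i`. -/
theorem zer_sgn (hLIFT : St_lift) (π : (Z ≃ₐ[RatFunc K] Z) →* (L ≃ₐ[K] L))
    (hπ : ∀ (σ : Z ≃ₐ[RatFunc K] Z) (x : L), σ (algebraMap L Z x) = algebraMap L Z (π σ x))
    (P : Subgroup (Z ≃ₐ[RatFunc K] Z)) (hPπ : P.map π = ⊤) (θ : Z) (Θ : K[X][X])
    (hθ : ∀ σ : Z ≃ₐ[RatFunc K] Z, σ θ = θ ↔ σ ∈ P)
    (hΘ : Θ.map (algebraMap K[X] (RatFunc K)) = minpoly (RatFunc K) θ) (D₀ : K[X]) (d : ℕ)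
    (hDD : DD Θ D₀ d) (χ : (L ≃ₐ[K] L) →* ℤˣ)
    (hidx : SgnIndex (Z ≃ₐ[RatFunc K] Z) P d (χ.comp π)) {g : ℕ} (a : Fin g → N)
    (ha : Function.Injective a) (hatr : ∀ i, Transcendental K (a i)) :
    ∃ b : Fin g → Fin d → N, (∀ i, Function.Injective (b i)) ∧
      (∀ i j, (tA Θ (a i)).eval (b i j) = 0) ∧
      ∀ (σ : N ≃ₐ[K] N) (h : L ≃ₐ[K] L) (τ : Equiv.Perm (Fin g)),
        (∀ c : L, σ (algebraMap L N c) = algebraMap L N (h c)) → (∀ i, σ (a i) = a (τ i)) →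
        ∃ ω : Fin g → Equiv.Perm (Fin d), (∀ i j, σ (b i j) = b (τ i) (ω i j)) ∧
          ∀ i, Equiv.Perm.sign (ω i) = χ h := by
  classical
  obtain ⟨γ, hγ, hsg⟩ := hidx
  -- roots and embeddings
  have hroot : ∀ i, ∃ c, (tA Θ (a i)).eval c = 0 := by
    intro i
    have h1 : (tA Θ (a i)).Monic := hDD.monic.map _
    have h2 : (tA Θ (a i)).natDegree = d := by
      unfold tA
      rw [hDD.monic.natDegree_map, hDD.deg]
    have h3 : (tA Θ (a i)).degree ≠ 0 := by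
      rw [degree_eq_natDegree h1.ne_zero, h2]
      exact_mod_cast hDD.pos.ne'
    exact IsAlgClosed.exists_root _ h3
  choose c hc using hroot
  choose φ hφX hφθ using fun i => exists_phi (L := L) hLIFT π hπ P hPπ θ Θ hθ hΘ (a i) (c i)
    (hatr i) (hc i)
  let φK : Fin g → Z →ₐ[K] N := fun i => (φ i).restrictScalars K
  -- the third clause for the full group
  have hfull : ∀ (φ ψ : Z →ₐ[K] N), φ (algebraMap (RatFunc K) Z RatFunc.X) =
      ψ (algebraMap (RatFunc K) Z RatFunc.X) → ∃ h : Z ≃ₐ[RatFunc K] Z, ∀ y, φ y = ψ (h y) := by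
    intro φ ψ h
    refine (hLIFT K Z N (Z ≃ₐ[RatFunc K] Z) (MonoidHom.id _) 0 X (fun σ => ?_) ?_).2.2 φ ψ h ?_
    · simp
    · rw [Polynomial.map_X, minpoly.zero]
    · rw [map_zero, map_zero]
  have hθ' : ∀ σ : Z ≃ₐ[RatFunc K] Z, σ θ = θ ↔ σ ∈ P.subtype.range := by
    intro σ
    rw [hθ, Subgroup.range_subtype]
  -- cosets
  have hcos : ∀ u v : Z ≃ₐ[RatFunc K] Z, u θ = v θ ↔
      ((u : (Z ≃ₐ[RatFunc K] Z) ⧸ P) = v) := by
    intro u v
    rw [QuotientGroup.eq, ← hθ]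
    constructor
    · intro h
      change u.symm (v θ) = θ
      rw [← h]
      exact u.symm_apply_apply θ
    · intro h
      change u.symm (v θ) = θ at h
      rw [AlgEquiv.symm_apply_eq] at h
      exact h.symm
  refine ⟨fun i j => φ i (γ j θ), fun i j k hjk => ?_, fun i j => ?_, ?_⟩
  · have h1 : γ j θ = γ k θ := (φ i).injective hjk
    rw [hcos] at h1
    exact hγ.1 h1
  · have h1 := (hLIFT K Z N P P.subtype θ Θ hθ' hΘ).2.1
      ((φK i).comp (((γ j).restrictScalars K : Z ≃ₐ[K] Z) : Z →ₐ[K] Z))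
    have h2 : ((φK i).comp (((γ j).restrictScalars K : Z ≃ₐ[K] Z) : Z →ₐ[K] Z))
        (algebraMap (RatFunc K) Z RatFunc.X) = a i := by
      change φ i (γ j _) = _
      rw [(γ j).commutes, hφX]
    rw [h2] at h1
    exact h1
  · intro σ h τ hσL hσa
    have h1 : ∀ i, ∃ u : Z ≃ₐ[RatFunc K] Z, ∀ y, σ (φ i y) = φ (τ i) (u y) := by
      intro i
      obtain ⟨u, hu⟩ := hfull ((σ : N →ₐ[K] N).comp (φK i)) (φK (τ i)) (by
        change σ (φ i _) = φ (τ i) _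
        rw [hφX, hφX, hσa])
      exact ⟨u, hu⟩
    choose u hu using h1
    have huπ : ∀ i, π (u i) = h := by
      intro i
      apply AlgEquiv.ext
      intro x
      apply (algebraMap L N).injective
      have h3 : σ (φ i (algebraMap L Z x)) = φ (τ i) (u i (algebraMap L Z x)) := hu i _
      rw [(φ i).commutes, hπ, (φ (τ i)).commutes, hσL] at h3
      exact h3.symm
    -- the permutations of the cosets
    have h2 : ∀ i, ∃ ω : Equiv.Perm (Fin d), ∀ t,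
        ((u i * γ t : Z ≃ₐ[RatFunc K] Z) : (Z ≃ₐ[RatFunc K] Z) ⧸ P) = γ (ω t) := by
      intro i
      choose f hf using fun t => hγ.2 ((u i * γ t : Z ≃ₐ[RatFunc K] Z) :
        (Z ≃ₐ[RatFunc K] Z) ⧸ P)
      have hfi : Function.Injective f := by
        intro t t' htt
        apply hγ.1
        have h3 := hf t
        have h4 := hf t'
        change ((γ (f t) : Z ≃ₐ[RatFunc K] Z) : (Z ≃ₐ[RatFunc K] Z) ⧸ P) = _ at h3
        change ((γ (f t') : Z ≃ₐ[RatFunc K] Z) : (Z ≃ₐ[RatFunc K] Z) ⧸ P) = _ at h4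
        rw [htt, h4] at h3
        rw [QuotientGroup.eq] at h3
        change ((γ t : Z ≃ₐ[RatFunc K] Z) : (Z ≃ₐ[RatFunc K] Z) ⧸ P) = γ t'
        rw [QuotientGroup.eq]
        have h5 : (u i * γ t')⁻¹ * (u i * γ t) = (γ t')⁻¹ * γ t := by group
        rw [h5] at h3
        have h6 := P.inv_mem h3
        rwa [mul_inv_rev, inv_inv] at h6
      exact ⟨Equiv.ofBijective f (Finite.injective_iff_bijective.1 hfi), fun t => (hf t).symm⟩
    choose ω hω using h2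
    refine ⟨ω, fun i j => ?_, fun i => ?_⟩
    · change σ (φ i (γ j θ)) = φ (τ i) (γ (ω i j) θ)
      rw [hu]
      congr 1
      exact (hcos (u i * γ j) (γ (ω i j))).2 (hω i j)
    · rw [hsg (u i) (ω i) (hω i), MonoidHom.comp_apply, huπ]

end zero

section main

variable (hMT : St_mt) (hTUP : St_tuple) (hLIFT : St_lift) (hARI : St_ariP) (hDATA : St_dataP)
    (hRES : St_res)
    {K L Z : Type} [Field K] [CharP K 2] [Infinite K] [Field L] [Algebra K L]
    [FiniteDimensional K L] [IsGalois K L] [Field Z] [Algebra (RatFunc K) Z] [Algebra L Z]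
    [Algebra K Z] [IsScalarTower K (RatFunc K) Z] [IsScalarTower K L Z]
    [FiniteDimensional (RatFunc K) Z] [IsGalois (RatFunc K) Z]
    (π : (Z ≃ₐ[RatFunc K] Z) →* (L ≃ₐ[K] L))
    (hπ : ∀ (σ : Z ≃ₐ[RatFunc K] Z) (x : L), σ (algebraMap L Z x) = algebraMap L Z (π σ x))
    (hreg : ∀ y : Z, IsAlgebraic L y → y ∈ Set.range (algebraMap L Z))
    (P : Subgroup (Z ≃ₐ[RatFunc K] Z)) {B : Type} [Group B] [Finite B] (β : P →* B)
    (hβ : Function.Surjective β) (a : B →* (L ≃ₐ[K] L)) (hsurj : Function.Surjective a)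
    (ha : ∀ p : P, a (β p) = π p) (hperf : commutator a.ker = ⊤)

include hMT hTUP hLIFT hARI hDATA hRES hπ hreg hβ hsurj ha hperf

theorem oneB3 (d : ℕ) (hd4 : 4 ≤ d) (χ : (L ≃ₐ[K] L) →* ℤˣ)
    (hidx : SgnIndex (Z ≃ₐ[RatFunc K] Z) P d (χ.comp π)) :
    ∃ n₀ : ℕ, ∀ n ≥ n₀, Dg2 d n → RegSol K L (AltTw a χ n) (twProj a χ n) := by
  classical
  obtain ⟨θ, Θ, D₀, hθ, hΘ, hDD⟩ := hDATA K Z P
  rw [index_of_sgnIndex hidx] at hDD
  have hd0 := hDD.pos
  obtain ⟨L', hL⟩ := exists_L Θ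
  obtain ⟨r, hr⟩ : ∃ r, r = d + 1 := ⟨_, rfl⟩
  let K₀ := AlgebraicClosure K
  let jL : L →ₐ[K] K₀ := IsAlgClosed.lift
  let iL : Algebra L K₀ := jL.toRingHom.toAlgebra
  have tKL : IsScalarTower K L K₀ := .of_algebraMap_eq fun x => (jL.commutes x).symm
  obtain ⟨N, i1, i2, i3, η, hη⟩ := exists_trb K₀ (Option (Fin (r + 1)))
  let i4 : Algebra K N := ((algebraMap K₀ N).comp (algebraMap K K₀)).toAlgebra
  let i4L : Algebra L N := ((algebraMap K₀ N).comp (algebraMap L K₀)).toAlgebra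
  have i5 : IsScalarTower K K₀ N := .of_algebraMap_eq fun _ => rfl
  have i5L : IsScalarTower L K₀ N := .of_algebraMap_eq fun _ => rfl
  have i6 : IsScalarTower K L N := .of_algebraMap_eq fun x => by
    rw [IsScalarTower.algebraMap_apply K K₀ N, IsScalarTower.algebraMap_apply K L K₀,
      ← IsScalarTower.algebraMap_apply L K₀ N]
  have hcN : CharP N 2 := charP_of_injective_algebraMap (algebraMap K N).injective 2
  obtain ⟨s, hs⟩ : ∃ s : N, s = η none := ⟨_, rfl⟩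
  obtain ⟨ν, hν⟩ : ∃ ν : Fin (r + 1) → N, ν = fun i => η (some i) := ⟨_, rfl⟩
  have hη' : (fun o : Option (Fin (r + 1)) => o.elim s ν) = η := by
    funext o
    cases o with
    | none => exact hs
    | some i => rw [hν]; rfl
  rw [← hη'] at hη
  have hs0 : s ≠ 0 := hη.1.ne_zero none
  have hνi : AlgebraicIndependent K₀ ν := hη.1.comp some (Option.some_injective _)
  obtain ⟨B₀, hB₀⟩ := t_par3' K N Θ D₀ d (r + 1) hDD ν s hs0
  obtain ⟨T, hT⟩ : ∃ T, T = 4 * D₀.natDegree + L' + r + B₀ + 3 := ⟨_, rfl⟩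
  refine ⟨8 * d * T + d + 2 * r + 2 * (Nat.card a.ker) ^ 2 + 3, fun n hn0 hn => ?_⟩
  obtain ⟨q, hq, hnq, hnc⟩ := hn
  rw [← hr] at hnq
  obtain ⟨j, hj⟩ : ∃ j, n = d * (8 * j + 1) := by
    refine ⟨n / (8 * d), ?_⟩
    have h1 := Nat.div_add_mod n (8 * d)
    rw [hnc] at h1
    calc n = 8 * d * (n / (8 * d)) + d := h1.symm
      _ = d * (8 * (n / (8 * d)) + 1) := by ring
  have hjT : T ≤ j := by
    by_contra h
    have h1 : d * (8 * j + 1) ≤ d * (8 * T) := Nat.mul_le_mul_left d (by omega)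
    have h2 : d * (8 * T) = 8 * d * T := by ring
    omega
  obtain ⟨Bd, hB⟩ : ∃ Bd, Bd = j - (4 * D₀.natDegree + 1) := ⟨_, rfl⟩
  have hDdeg : (D₀ ^ 4 * X).natDegree = 4 * D₀.natDegree + 1 := by
    rw [natDegree_mul (pow_ne_zero _ hDD.ne) X_ne_zero, natDegree_pow, natDegree_X]
  have hg : g3 D₀ Bd = 8 * j + 1 := by
    unfold g3
    rw [hDdeg]
    omega
  have hnd : d * g3 D₀ Bd = n := by rw [hg, hj]
  have hm : r + 1 ≤ Bd := by omega
  have hco : ∀ k, (Θ.coeff k).natDegree < Bd := fun k => by have := hL k; omega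
  obtain ⟨x, θx, hx, hpt, hall⟩ := t_pts3 hRES K N Θ D₀ d Bd (r + 1) hDD hm hco ν s hs0
  obtain ⟨z, hz, hz0, hzall⟩ := zer3 K N D₀ hDD.ne Bd (r + 1) hm ν
  have hPπ : P.map π = ⊤ := by
    rw [Subgroup.eq_top_iff']
    intro h
    obtain ⟨b, hb⟩ := hsurj h
    obtain ⟨u, hu⟩ := hβ b
    exact ⟨u, u.2, by rw [← ha, hu, hb]⟩
  obtain ⟨b, hb1, hb2, hb3⟩ := zer_sgn hLIFT π hπ P hPπ θ Θ hθ hΘ D₀ d hDD χ hidx z hz
    (fun i => zer_trans K K₀ N _ Bd r ν hνi (z i) (hz0 i))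
  rw [← hnd]
  refine Pool.Agent.H43W.coreR (K₀ := K₀) (N := N) hMT hTUP hLIFT hARI π hπ hreg P θ Θ hθ hΘ β hβ a
      hsurj ha hperf r q _ hq (hnd.trans hnq) (by omega) (by omega)
      (lt_of_lt_of_le (by omega) (Nat.self_le_factorial _)) s ν hη x θx hx
      (fun ν' s' u v => IsPt3 Θ (D₀ ^ 4 * X) Bd ν' s' u v) (fun u v h => h.1)
      (fun σ u v h => h.map (σ : N →ₐ[K] N)) (fun ν' u v hu h h' => lin3 u v hu h h')
      (fun u v hu h => indep3 K K₀ N Θ D₀ (D₀ ^ 4 * X) d Bd (r + 1) hDD ν s hη u v hu h)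
      hpt hall χ ?_
  intro σ h τ hσs hσν hσL _ hτ _
  -- the permutation of the zeros
  have hσz : ∀ i, ∃ i', σ (z i) = z i' := by
    intro i
    refine hzall _ ?_
    have h1 := G3_map (D₀ ^ 4 * X) Bd ν (σ : N →ₐ[K] N)
    have h2 : (fun i => (σ : N →ₐ[K] N) (ν i)) = ν := funext hσν
    rw [h2] at h1
    rw [h1, eval_map]
    have h3 : eval₂ ((σ : N →ₐ[K] N) : N →+* N) (σ (z i)) (G3 (D₀ ^ 4 * X) Bd ν) =
        (σ : N →ₐ[K] N) ((G3 (D₀ ^ 4 * X) Bd ν).eval (z i)) :=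
      eval₂_at_apply ((σ : N →ₐ[K] N) : N →+* N) (z i)
    rw [h3, hz0, map_zero]
  choose f hf using hσz
  have hfi : Function.Injective f := by
    intro i i' h'
    apply hz
    apply σ.injective
    rw [hf, hf, h']
  let τ' : Equiv.Perm (Fin (g3 D₀ Bd)) :=
    Equiv.ofBijective f (Finite.injective_iff_bijective.1 hfi)
  obtain ⟨ω, hω1, hω2⟩ := hb3 σ h τ' hσL hf
  exact hB₀ Bd (by omega) x θx hx hpt z b hz hb1 hz0 hb2 σ hσs hσν τ hτ τ' ω (χ h) hf hω1 hω2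

end main

/-- The main theorem in characteristic 2, all characters. -/
theorem mainB2 (K L : Type) [Field K] [CharP K 2] [Infinite K] [Field L]
    [Algebra K L] [FiniteDimensional K L] [IsGalois K L] (B : Type) [Group B] [Finite B]
    (a : B →* (L ≃ₐ[K] L)) (ha : Function.Surjective a) (hperf : commutator a.ker = ⊤)
    (hw : WeakSol K L B a) (r : ℕ) (hr : Odd r)
    (hr2 : ((72 * Nat.card a.ker + 2).factorial) ^ 3 ≤ r) :
    ∃ n₀ : ℕ, ∀ n ≥ n₀, Dg2 (6 * r) n → ∀ χ : (L ≃ₐ[K] L) →* ℤˣ,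
      RegSol K L (AltTw a χ n) (twProj a χ n) := by
  have h1 : ∀ χ : (L ≃ₐ[K] L) →* ℤˣ, ∃ n₀ : ℕ, ∀ n ≥ n₀, Dg2 (6 * r) n →
      RegSol K L (AltTw a χ n) (twProj a χ n) := by
    intro χ
    have hker : Nat.card (a.comp (MonoidHom.fst B (Equiv.Perm (Fin 4)))).ker =
        24 * Nat.card a.ker := by
      have e : (a.comp (MonoidHom.fst B (Equiv.Perm (Fin 4)))).ker ≃
          Equiv.Perm (Fin 4) × a.ker :=
        { toFun := fun x => (x.1.2, ⟨x.1.1, x.2⟩)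
          invFun := fun y => ⟨(y.2.1, y.1), y.2.2⟩
          left_inv := fun x => rfl
          right_inv := fun y => rfl }
      rw [Nat.card_congr e, Nat.card_prod, Nat.card_eq_fintype_card (α := Equiv.Perm (Fin 4)),
        Fintype.card_perm, Fintype.card_fin]
      rfl
    have hws : WeakSol K L (B × Equiv.Perm (Fin 4))
        (a.comp (MonoidHom.fst B (Equiv.Perm (Fin 4)))) := by
      obtain ⟨L', i1, i2, i3, i4, i5, i6, s, hs⟩ := hw
      exact ⟨L', i1, i2, i3, i4, i5, i6, (MonoidHom.inl B (Equiv.Perm (Fin 4))).comp s, hs⟩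
    obtain ⟨Z, i1, i2, i3, i4, i5, i6, i7, i8, γ, hγ, hreg⟩ :=
      Pool.Agent.TH59.WX.reg_sym_unif K L (B × Equiv.Perm (Fin 4))
        (a.comp (MonoidHom.fst B (Equiv.Perm (Fin 4)))) hws r (by
          rw [hker]
          have h2 : 3 * (24 * Nat.card a.ker) + 2 = 72 * Nat.card a.ker + 2 := by ring
          rwa [h2])
    obtain ⟨P, β, hβ, hβ2, hidx⟩ := Pool.Agent.N342.EP.t_grp1 (L ≃ₐ[K] L) B a ha χ r hr
    let P' := P.comap (γ : (Z ≃ₐ[RatFunc K] Z) →* _)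
    have hmap : P'.map (γ : (Z ≃ₐ[RatFunc K] Z) →* _) = P :=
      Subgroup.map_comap_eq_self_of_surjective γ.surjective P
    let e : P' ≃* P := (γ.subgroupMap P').trans (MulEquiv.subgroupCongr hmap)
    have hidx' := sgnIndex_comap γ P (6 * r) _ hidx
    exact oneB3 hyp.mt hyp.tup hyp.lift hyp.ari hyp.data Pool.Agent.Y421.AW.t_res
      ((symProj (a.comp (MonoidHom.fst B (Equiv.Perm (Fin 4)))) r).comp
      (γ : (Z ≃ₐ[RatFunc K] Z) →* _)) hγ hreg P' (β.comp (e : P' →* P)) (hβ.comp e.surjective) a ha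
      (fun u => hβ2 (e u)) hperf (6 * r) (by obtain ⟨r', hr'⟩ := hr; omega) χ hidx'
  choose f hf using h1
  have hfin : Finite ((L ≃ₐ[K] L) →* ℤˣ) :=
    Finite.of_injective (fun f : (L ≃ₐ[K] L) →* ℤˣ => (f : (L ≃ₐ[K] L) → ℤˣ))
      DFunLike.coe_injective
  have hft := Fintype.ofFinite ((L ≃ₐ[K] L) →* ℤˣ)
  refine ⟨Finset.univ.sup f, fun n hn hd χ => hf χ n ?_ hd⟩
  exact (Finset.le_sup (f := f) (Finset.mem_univ χ)).trans hn

end Pool.Agent.XE31.C2
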