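import Mathlib
import Pool.Agent.H43W.Fib2
import Pool.Agent.XE31.C2.Main3

/-!
Project C2: the main theorem in characteristic 2, in the form used by project W2.
-/

set_option autoImplicit false

namespace Pool.Agent.XE31.C2

theorem t_mB2 : Pool.Agent.H43W.St_mB2 :=
  fun K L _ _ _ _ _ _ _ B _ _ a ha hp hw r hr hr2 => mainB2 K L B a ha hp hw r hr hr2

end Pool.Agent.XE31.C2
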